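import Mathlib

/-!
Flows with a Hausdorff orbit space: basic structure of the orbits.
-/

open Metric Set Topology Filter

namespace Pool.Agent.MP74810d

variable {M Q : Type*} [MetricSpace M] [ProperSpace M] [TopologicalSpace Q] [T2Space Q]

/-- `q : M → Q` is (a model of) the orbit map of the flow `Φ` on `M`. -/
structure FlowOrb (Φ : ℝ → M → M) (q : M → Q) : Prop where
  cont : Continuous (fun p : ℝ × M => Φ p.1 p.2)
  zero : ∀ x, Φ 0 x = x
  add : ∀ s t x, Φ (s + t) x = Φ s (Φ t x)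
  qcont : Continuous q
  qopen : IsOpenMap q
  qsurj : Function.Surjective q
  fib : ∀ x y, q x = q y ↔ ∃ t, Φ t x = y

namespace FlowOrb

variable {Φ : ℝ → M → M} {q : M → Q} (h : FlowOrb Φ q)
include h

omit [ProperSpace M] [T2Space Q] in
theorem q_flow (t : ℝ) (x : M) : q (Φ t x) = q x := ((h.fib x _).2 ⟨t, rfl⟩).symm

omit [ProperSpace M] [T2Space Q] in
theorem cont_t (x : M) : Continuous fun t => Φ t x :=
  h.cont.comp (by fun_prop : Continuous fun t : ℝ => (t, x))

omit [ProperSpace M] [T2Space Q] in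
theorem cont_x (t : ℝ) : Continuous (Φ t) :=
  h.cont.comp (by fun_prop : Continuous fun x : M => (t, x))

omit [ProperSpace M] [T2Space Q] in
theorem inv_flow (t : ℝ) (x : M) : Φ (-t) (Φ t x) = x := by
  rw [← h.add]; simp [h.zero]

omit [ProperSpace M] [T2Space Q] in
theorem flow_inv (t : ℝ) (x : M) : Φ t (Φ (-t) x) = x := by
  rw [← h.add]; simp [h.zero]

omit [ProperSpace M] [T2Space Q] in
theorem preimage_singleton (x : M) : q ⁻¹' {q x} = range fun t => Φ t x := by
  ext y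
  simp only [mem_preimage, mem_singleton_iff, mem_range]
  rw [eq_comm, h.fib]

omit [ProperSpace M] in
theorem isClosed_fiber (y : Q) : IsClosed (q ⁻¹' {y}) := isClosed_singleton.preimage h.qcont

omit [ProperSpace M] [T2Space Q] in
theorem isPreconnected_fiber (y : Q) : IsPreconnected (q ⁻¹' {y}) := by
  obtain ⟨x, rfl⟩ := h.qsurj y
  rw [h.preimage_singleton]
  exact isPreconnected_range (h.cont_t x)

/-- stability of compact orbits -/
theorem exists_nhds_preimage_subset {y : Q} (hy : IsCompact (q ⁻¹' {y})) {O : Set M}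
    (hO : IsOpen O) (hyO : q ⁻¹' {y} ⊆ O) :
    ∃ K : Set M, IsCompact K ∧ K ⊆ O ∧ ∃ W : Set Q, IsOpen W ∧ y ∈ W ∧ q ⁻¹' W ⊆ K := by
  obtain ⟨K, hK, hyK, hKO⟩ := exists_compact_between hy hO hyO
  refine ⟨K, hK, hKO, (q '' frontier K)ᶜ ∩ q '' interior K, ?_, ⟨?_, ?_⟩, ?_⟩
  · have hfr : IsCompact (frontier K) := hK.of_isClosed_subset isClosed_frontier
      hK.isClosed.frontier_subset
    exact (hfr.image h.qcont).isClosed.isOpen_compl.inter (h.qopen _ isOpen_interior)
  · rintro ⟨z, hz, hzy⟩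
    have : z ∈ interior K := hyK (by simpa using hzy)
    rw [frontier, Set.mem_sdiff] at hz
    exact hz.2 this
  · obtain ⟨x, rfl⟩ := h.qsurj y
    exact ⟨x, hyK (by simp), rfl⟩
  · rintro x ⟨hx1, hx2⟩
    by_contra hxK
    obtain ⟨z, hz, hzx⟩ := hx2
    have hpre := h.isPreconnected_fiber (q x)
    have hsub : q ⁻¹' {q x} ⊆ interior K ∪ Kᶜ := by
      intro w hw
      by_contra hcon
      rw [mem_union, not_or, mem_compl_iff, not_not] at hcon
      exact hx1 ⟨w, ⟨subset_closure hcon.2, hcon.1⟩, hw⟩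
    obtain ⟨w, -, hw1, hw2⟩ := hpre (interior K) Kᶜ isOpen_interior hK.isClosed.isOpen_compl hsub
      ⟨z, by simpa using hzx, hz⟩ ⟨x, by simp, hxK⟩
    exact hw2 (interior_subset hw1)

theorem isOpen_compactSet : IsOpen {y : Q | IsCompact (q ⁻¹' {y})} := by
  rw [isOpen_iff_mem_nhds]
  intro y hy
  obtain ⟨K, hK, -, W, hW, hyW, hWK⟩ := h.exists_nhds_preimage_subset hy isOpen_univ
    (subset_univ _)
  filter_upwards [hW.mem_nhds hyW] with z hz
  exact hK.of_isClosed_subset (h.isClosed_fiber z)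
    ((preimage_mono (singleton_subset_iff.2 hz)).trans hWK)

theorem isCompact_preimage {L : Set Q} (hL : IsCompact L)
    (hLU : ∀ y ∈ L, IsCompact (q ⁻¹' {y})) : IsCompact (q ⁻¹' L) := by
  have key : ∀ y ∈ L, ∃ W ∈ 𝓝[L] y, ∃ K : Set M, IsCompact K ∧ q ⁻¹' W ⊆ K := by
    intro y hy
    obtain ⟨K, hK, -, W, hW, hyW, hWK⟩ := h.exists_nhds_preimage_subset (hLU y hy) isOpen_univ
      (subset_univ _)
    exact ⟨W, mem_nhdsWithin_of_mem_nhds (hW.mem_nhds hyW), K, hK, hWK⟩
  have : ∃ K : Set M, IsCompact K ∧ q ⁻¹' L ⊆ K := by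
    refine hL.induction_on (p := fun L => ∃ K : Set M, IsCompact K ∧ q ⁻¹' L ⊆ K) ?_ ?_ ?_ ?_
    · exact ⟨∅, isCompact_empty, by simp⟩
    · rintro s t hst ⟨K, hK, hKt⟩
      exact ⟨K, hK, (preimage_mono hst).trans hKt⟩
    · rintro s t ⟨K, hK, hKs⟩ ⟨K', hK', hKt⟩
      refine ⟨K ∪ K', hK.union hK', ?_⟩
      rw [preimage_union]
      exact union_subset_union hKs hKt
    · exact key
  obtain ⟨K, hK, hLK⟩ := this
  exact hK.of_isClosed_subset (hL.isClosed.preimage h.qcont) hLK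

omit [ProperSpace M] [T2Space Q] in
theorem periodic_compact {x : M} {T : ℝ} (hT : 0 < T) (hx : Φ T x = x) :
    IsCompact (q ⁻¹' {q x}) := by
  rw [h.preimage_singleton]
  have hper : Function.Periodic (fun t => Φ t x) T := by
    intro t
    simp only
    rw [h.add, hx]
  rw [← hper.image_Icc hT 0]
  exact isCompact_Icc.image (h.cont_t x)

/-- dichotomy: every point is periodic or has a properly embedded orbit -/
theorem periodic_or_proper (x : M) :
    (∃ T, 0 < T ∧ Φ T x = x) ∨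
      ((∀ a b, Φ a x = Φ b x → a = b) ∧ ∀ K : Set M, IsCompact K → IsCompact {t | Φ t x ∈ K}) := by
  by_cases hper : ∃ T, 0 < T ∧ Φ T x = x
  · exact Or.inl hper
  refine Or.inr ?_
  push Not at hper
  have hinj : ∀ a b, Φ a x = Φ b x → a = b := by
    have aux : ∀ a b, a < b → Φ a x ≠ Φ b x := by
      intro a b hab heq
      apply hper (b - a) (by linarith)
      rw [sub_eq_neg_add, h.add, ← heq, h.inv_flow]
    intro a b hab
    rcases lt_trichotomy a b with h1 | h1 | h1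
    · exact absurd hab (aux a b h1)
    · exact h1
    · exact absurd hab.symm (aux b a h1)
  refine ⟨hinj, ?_⟩
  intro K hK
  have hclosed : IsClosed {t | Φ t x ∈ K} := hK.isClosed.preimage (h.cont_t x)
  -- the orbit is a Baire space
  set O : Set M := q ⁻¹' {q x} with hO
  have hOc : IsClosed O := h.isClosed_fiber _
  have : CompleteSpace O := hOc.completeSpace_coe
  have : Nonempty O := ⟨⟨x, by simp [hO]⟩⟩
  have hcov : ⋃ n : ℕ, {p : O | (p : M) ∈ (fun t => Φ t x) '' Icc (-(n : ℝ)) n} = univ := by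
    rw [eq_univ_iff_forall]
    rintro ⟨p, hp⟩
    rw [hO, h.preimage_singleton] at hp
    obtain ⟨t, rfl⟩ := hp
    obtain ⟨n, hn⟩ := exists_nat_ge |t|
    rw [mem_iUnion]
    refine ⟨n, t, ?_, rfl⟩
    rw [abs_le] at hn
    exact hn
  obtain ⟨n, hn⟩ := nonempty_interior_of_iUnion_of_closed (fun n => by
    have : IsClosed ((fun t => Φ t x) '' Icc (-(n : ℝ)) n) :=
      (isCompact_Icc.image (h.cont_t x)).isClosed
    exact this.preimage continuous_subtype_val) hcov
  obtain ⟨⟨z₁, hz₁O⟩, hz₁⟩ := hn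
  rw [mem_interior_iff_mem_nhds, mem_nhds_induced] at hz₁
  obtain ⟨V, hV, hVn⟩ := hz₁
  have hVO : ∀ w ∈ V, w ∈ O → ∃ r ∈ Icc (-(n : ℝ)) n, Φ r x = w := by
    intro w hwV hwO
    have : (⟨w, hwO⟩ : O) ∈ ((↑) : O → M) ⁻¹' V := hwV
    exact hVn this
  obtain ⟨s₁, rfl⟩ : ∃ s₁, Φ s₁ x = z₁ := by
    rw [hO, h.preimage_singleton] at hz₁O
    exact hz₁O
  by_contra hnc
  have hnb : ¬ Bornology.IsBounded {t | Φ t x ∈ K} := fun hb =>
    hnc (Metric.isCompact_of_isClosed_isBounded hclosed hb)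
  have hseq : ∀ k : ℕ, ∃ t, Φ t x ∈ K ∧ (k : ℝ) < |t| := by
    intro k
    by_contra hcon
    push Not at hcon
    apply hnb
    rw [isBounded_iff_forall_norm_le]
    exact ⟨k, fun t ht => by simpa using hcon t ht⟩
  choose t htK htk using hseq
  obtain ⟨z, hzK, φ, hφ, hlim⟩ := hK.tendsto_subseq htK
  obtain ⟨s, rfl⟩ : ∃ s, Φ s x = z := by
    have hz : z ∈ O := hOc.mem_of_tendsto hlim (Eventually.of_forall fun k => by
      simp [hO, h.q_flow])
    rw [hO, h.preimage_singleton] at hz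
    exact hz
  have hlim2 : Tendsto (fun k => Φ (t (φ k) + (s₁ - s)) x) atTop (𝓝 (Φ s₁ x)) := by
    have h1 := ((h.cont_x (s₁ - s)).tendsto (Φ s x)).comp hlim
    have h2 : Φ (s₁ - s) (Φ s x) = Φ s₁ x := by rw [← h.add]; ring_nf
    rw [h2] at h1
    refine h1.congr (fun k => ?_)
    simp only [Function.comp]
    rw [← h.add, add_comm]
  have hev := hlim2.eventually hV
  have hbig : ∀ᶠ k : ℕ in atTop, (n : ℝ) + |s₁ - s| < k := by
    obtain ⟨m, hm⟩ := exists_nat_gt ((n : ℝ) + |s₁ - s|)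
    filter_upwards [eventually_ge_atTop m] with k hk
    have : (m : ℝ) ≤ k := by exact_mod_cast hk
    linarith
  obtain ⟨k, hk1, hk2⟩ := (hev.and hbig).exists
  obtain ⟨r, hr, hr2⟩ := hVO _ hk1 (by simp [hO, h.q_flow])
  have h3 := hinj _ _ hr2
  have h4 : (k : ℝ) < |t (φ k)| := lt_of_le_of_lt (by exact_mod_cast hφ.id_le k) (htk (φ k))
  have h5 : |t (φ k)| ≤ n + |s₁ - s| := by
    have : t (φ k) = r - (s₁ - s) := by linarith
    rw [this]
    refine (abs_sub _ _).trans ?_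
    have : |r| ≤ n := abs_le.2 hr
    linarith
  linarith

end FlowOrb

end Pool.Agent.MP74810d
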