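import Mathlib
import Pool.Agent.Lib.MP_74810d_gt.Flow

/-!
Orbits as embedded submanifolds (topologically), null criteria for circle valued functions
along an orbit.
-/

open Metric Set Topology Filter

namespace Pool.Agent.MP74810d

theorem lift_unique {g₁ g₂ : ℝ → ℝ} (h₁ : Continuous g₁) (h₂ : Continuous g₂)
    (he : ∀ t, Circle.exp (g₁ t) = Circle.exp (g₂ t)) {a : ℝ} (ha : g₁ a = g₂ a) (t : ℝ) :
    g₁ t = g₂ t :=
  congrFun (Circle.isCoveringMap_exp.eq_of_comp_eq h₁ h₂ (funext he) a ha) t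

theorem const_of_exp {g : ℝ → ℝ} (hg : Continuous g)
    (h : ∀ s t, Circle.exp (g s) = Circle.exp (g t)) (s t : ℝ) : g s = g t :=
  Circle.isCoveringMap_exp.const_of_comp hg h s t

theorem constOn_of_exp {g : ℝ → ℝ} {S : Set ℝ} (hS : IsPreconnected S) (hg : ContinuousOn g S)
    (h : ∀ s ∈ S, ∀ t ∈ S, Circle.exp (g s) = Circle.exp (g t)) {s t : ℝ} (hs : s ∈ S)
    (ht : t ∈ S) : g s = g t :=
  Circle.isCoveringMap_exp.constOn_of_comp hS hg h hs ht

/-- a circle valued continuous function of a real variable has a continuous logarithm -/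
theorem exists_log_real (f : ℝ → Circle) (hf : Continuous f) :
    ∃ g : ℝ → ℝ, Continuous g ∧ ∀ x, Circle.exp (g x) = f x := by
  obtain ⟨F, ⟨-, hF⟩, -⟩ := Circle.isCoveringMap_exp.existsUnique_continuousMap_lifts
    ⟨f, hf⟩ 0 (Complex.arg (f 0)) (Circle.exp_arg (f 0))
  exact ⟨F, F.continuous, fun x => congrFun hF x⟩

variable {M Q : Type*} [MetricSpace M] [ProperSpace M] [TopologicalSpace Q] [T2Space Q]

/-- `f` is null over `y`: up to a constant it is the exponential of a compactly supported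
continuous real function along the fibre over `y`. -/
def NullF (q : M → Q) (f : M → Circle) (y : Q) : Prop :=
  ∃ l : M → ℝ, ContinuousOn l (q ⁻¹' {y}) ∧
    (∃ B : Set M, IsCompact B ∧ ∀ x, q x = y → x ∉ B → l x = 0) ∧
    ∃ κ : Circle, ∀ x, q x = y → f x = κ * Circle.exp (l x)

namespace FlowOrb

variable {Φ : ℝ → M → M} {q : M → Q} (h : FlowOrb Φ q)
include h

/-- points of the orbit in a compact set have times in a compact set -/
theorem compact_times (x : M) {K : Set M} (hK : IsCompact K) :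
    ∃ I : Set ℝ, IsCompact I ∧ ∀ z ∈ K, q z = q x → ∃ t ∈ I, Φ t x = z := by
  rcases h.periodic_or_proper x with ⟨T, hT, hx⟩ | ⟨-, hp⟩
  · refine ⟨Icc 0 T, isCompact_Icc, ?_⟩
    intro z _ hz
    obtain ⟨s, hs⟩ := (h.fib _ _).1 hz.symm
    have hper : Function.Periodic (fun t => Φ t x) T := by
      intro t
      simp only
      rw [h.add, hx]
    obtain ⟨y, hy, hxy⟩ := hper.exists_mem_Ico₀ hT s
    exact ⟨y, Ico_subset_Icc_self hy, by rw [← hs]; exact hxy.symm⟩
  · refine ⟨_, hp K hK, ?_⟩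
    intro z hzK hz
    obtain ⟨s, hs⟩ := (h.fib _ _).1 hz.symm
    exact ⟨s, by simpa [hs] using hzK, hs⟩

theorem orbit_nhds (x : M) {ε : ℝ} (hε : 0 < ε) :
    ∃ r > 0, ∀ z, q z = q x → dist z x < r → ∃ t, |t| < ε ∧ Φ t x = z := by
  by_contra hcon
  push Not at hcon
  have hc : ∀ n : ℕ, ∃ z, q z = q x ∧ dist z x < 1 / ((n : ℝ) + 1) ∧
      ∀ t, |t| < ε → Φ t x ≠ z := fun n => hcon _ (by positivity)
  choose z hzq hzd hzt using hc
  obtain ⟨I, hI, hIz⟩ := h.compact_times x (isCompact_closedBall x 1)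
  have hz1 : ∀ n, z n ∈ closedBall x 1 := by
    intro n
    rw [mem_closedBall]
    refine (hzd n).le.trans ?_
    rw [div_le_one (by positivity)]
    have : (0 : ℝ) ≤ n := by positivity
    linarith
  have hlimz : Tendsto z atTop (𝓝 x) := by
    rw [tendsto_iff_dist_tendsto_zero]
    refine squeeze_zero (fun _ => dist_nonneg) (fun n => (hzd n).le) ?_
    exact tendsto_one_div_add_atTop_nhds_zero_nat
  choose t htI htz using fun n => hIz (z n) (hz1 n) (hzq n)
  obtain ⟨a, -, φ, hφ, hlim⟩ := hI.tendsto_subseq htI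
  have hax : Φ a x = x := by
    have h1 : Tendsto (fun n => Φ (t (φ n)) x) atTop (𝓝 (Φ a x)) :=
      ((h.cont_t x).tendsto a).comp hlim
    have h2 : Tendsto (fun n => Φ (t (φ n)) x) atTop (𝓝 x) := by
      simp only [htz]
      exact hlimz.comp hφ.tendsto_atTop
    exact tendsto_nhds_unique h1 h2
  have hev : ∀ᶠ n in atTop, dist (t (φ n)) a < ε := (tendsto_iff_dist_tendsto_zero.1 hlim).eventually
    (gt_mem_nhds hε)
  obtain ⟨n, hn⟩ := hev.exists
  refine hzt (φ n) (t (φ n) - a) (by rwa [Real.dist_eq] at hn) ?_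
  rw [← htz (φ n)]
  conv_lhs => rw [← hax]
  rw [← h.add]
  ring_nf

theorem continuousOn_orbit {α : Type*} [TopologicalSpace α] {x : M} {f : M → α}
    (hf : Continuous fun t => f (Φ t x)) : ContinuousOn f (q ⁻¹' {q x}) := by
  intro z hz
  obtain ⟨s, rfl⟩ : ∃ s, Φ s x = z := (h.fib _ _).1 (by simpa using hz.symm)
  intro V hV
  have h1 := hf.continuousAt.preimage_mem_nhds (x := s) hV
  obtain ⟨ε, hε, hεV⟩ := Metric.mem_nhds_iff.1 h1
  obtain ⟨r, hr, hrz⟩ := h.orbit_nhds (Φ s x) hε
  rw [mem_map, mem_nhdsWithin]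
  refine ⟨ball (Φ s x) r, isOpen_ball, mem_ball_self hr, ?_⟩
  rintro w ⟨hw, hwO⟩
  obtain ⟨t, ht, htw⟩ := hrz w (by rw [h.q_flow]; simpa using hwO) (by simpa using hw)
  rw [mem_preimage, ← htw, ← h.add]
  have : t + s ∈ ball s ε := by simpa using ht
  exact hεV this

/-- a function on times which factors through the orbit -/
theorem exists_factor {α : Type*} [TopologicalSpace α] [Nonempty α] {x : M} {θ : ℝ → α}
    (hθ : Continuous θ) (hf : ∀ s t, Φ s x = Φ t x → θ s = θ t) :
    ∃ l : M → α, ContinuousOn l (q ⁻¹' {q x}) ∧ ∀ t, l (Φ t x) = θ t := by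
  classical
  let l : M → α := fun z => if hz : ∃ t, Φ t x = z then θ hz.choose else Classical.arbitrary α
  have hl : ∀ t, l (Φ t x) = θ t := by
    intro t
    have hz : ∃ s, Φ s x = Φ t x := ⟨t, rfl⟩
    simp only [l, dif_pos hz]
    exact hf _ _ hz.choose_spec
  refine ⟨l, h.continuousOn_orbit (by simpa only [hl] using hθ), hl⟩

theorem nullF_of_periodic (x : M) {T : ℝ} (hT : 0 < T) (hx : Φ T x = x) {f : M → Circle}
    {θ : ℝ → ℝ} (hθ : Continuous θ) (hfθ : ∀ t, Circle.exp (θ t) = f (Φ t x))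
    (hθT : θ T = θ 0) : NullF q f (q x) := by
  have shift : ∀ r, Φ r x = x → ∀ u, θ (u + r) - θ u = θ r - θ 0 := by
    intro r hr u
    have h1 : ∀ s t, Circle.exp (θ (s + r) - θ s) = Circle.exp (θ (t + r) - θ t) := by
      have h2 : ∀ s, Circle.exp (θ (s + r) - θ s) = 1 := by
        intro s
        rw [Circle.exp_sub, hfθ, hfθ, h.add, hr, div_self']
      intro s t
      rw [h2, h2]
    have h3 := const_of_exp (by fun_prop : Continuous fun s => θ (s + r) - θ s) h1 u 0
    simpa using h3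
  have hper : Function.Periodic θ T := by
    intro t
    have := shift T hx t
    rw [hθT, sub_self] at this
    linarith
  obtain ⟨C, hC⟩ : ∃ C, ∀ t, |θ t| ≤ C := by
    obtain ⟨C, hC⟩ := (isCompact_Icc (a := (0 : ℝ)) (b := T)).exists_bound_of_continuousOn
      hθ.continuousOn
    refine ⟨C, fun t => ?_⟩
    obtain ⟨y, hy, hty⟩ := hper.exists_mem_Ico₀ hT t
    rw [hty]
    exact hC y (Ico_subset_Icc_self hy)
  have hzero : ∀ r, Φ r x = x → θ r - θ 0 = 0 := by
    intro r hr
    have hk : ∀ k : ℕ, θ (k * r) = θ 0 + k * (θ r - θ 0) := by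
      intro k
      induction k with
      | zero => simp
      | succ k ih =>
        have := shift r hr (k * r)
        push_cast
        rw [add_mul, one_mul, add_mul, one_mul]
        linarith
    by_contra hne
    obtain ⟨k, hk2⟩ := exists_nat_gt (2 * C / |θ r - θ 0|)
    have hpos : 0 < |θ r - θ 0| := abs_pos.2 hne
    rw [div_lt_iff₀ hpos] at hk2
    have h4 := hk k
    have h5 : |(k : ℝ) * (θ r - θ 0)| ≤ 2 * C := by
      have : (k : ℝ) * (θ r - θ 0) = θ (k * r) - θ 0 := by linarith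
      rw [this]
      refine (abs_sub _ _).trans ?_
      linarith [hC (k * r), hC 0]
    rw [abs_mul, Nat.abs_cast] at h5
    linarith
  obtain ⟨l, hl, hlθ⟩ := h.exists_factor (x := x) hθ (by
    intro s t hst
    have hr : Φ (s - t) x = x := by
      rw [sub_eq_neg_add, h.add, hst, h.inv_flow]
    have h1 := shift _ hr t
    rw [hzero _ hr] at h1
    simp only [add_sub_cancel] at h1
    linarith)
  refine ⟨l, hl, ⟨q ⁻¹' {q x}, h.periodic_compact hT hx, ?_⟩, 1, ?_⟩
  · intro z hz hz2
    exact absurd hz hz2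
  · intro z hz
    obtain ⟨s, rfl⟩ := (h.fib _ _).1 hz.symm
    rw [hlθ, hfθ, one_mul]

theorem nullF_of_proper (x : M) (hinj : ∀ a b, Φ a x = Φ b x → a = b) {f : M → Circle}
    {θ : ℝ → ℝ} (hθ : Continuous θ) (hfθ : ∀ t, Circle.exp (θ t) = f (Φ t x)) {S : ℝ}
    (hS : ∀ t, S ≤ |t| → θ t = θ S) : NullF q f (q x) := by
  obtain ⟨l, hl, hlθ⟩ := h.exists_factor (x := x) (θ := fun t => θ t - θ S)
    (by fun_prop) (by
    intro s t hst
    rw [hinj _ _ hst])
  refine ⟨l, hl, ⟨(fun t => Φ t x) '' Icc (-S) S, isCompact_Icc.image (h.cont_t x), ?_⟩,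
    Circle.exp (θ S), ?_⟩
  · intro z hz hz2
    obtain ⟨s, rfl⟩ := (h.fib _ _).1 hz.symm
    rw [hlθ, hS s, sub_self]
    by_contra hcon
    push Not at hcon
    rw [abs_lt] at hcon
    exact hz2 ⟨s, ⟨hcon.1.le, hcon.2.le⟩, rfl⟩
  · intro z hz
    obtain ⟨s, rfl⟩ := (h.fib _ _).1 hz.symm
    rw [hlθ, ← Circle.exp_add, ← hfθ]
    congr 1
    ring

/-- windings along an orbit -/
theorem winding_data (x : M) {B : Set M} (hB : IsCompact B) : ∃ α β : ℝ,
    ∀ (f : M → Circle) (θ : ℝ → ℝ), (∀ z, q z = q x → z ∉ B → f z = 1) → Continuous θ →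
      (∀ t, Circle.exp (θ t) = f (Φ t x)) →
      (∃ m : ℤ, θ β - θ α = m * (2 * Real.pi)) ∧ (θ β = θ α → NullF q f (q x)) := by
  rcases h.periodic_or_proper x with ⟨T, hT, hx⟩ | ⟨hinj, hp⟩
  · refine ⟨0, T, ?_⟩
    intro f θ _ hθ hfθ
    refine ⟨?_, fun hθT => h.nullF_of_periodic x hT hx hθ hfθ hθT⟩
    have : Circle.exp (θ T) = Circle.exp (θ 0) := by rw [hfθ, hfθ, hx, h.zero]
    obtain ⟨m, hm⟩ := Circle.exp_eq_exp.1 this
    exact ⟨m, by linarith⟩
  · obtain ⟨S, hS⟩ : ∃ S, ∀ t, S ≤ |t| → Φ t x ∉ B := by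
      obtain ⟨C, hC⟩ := (hp B hB).isBounded.subset_closedBall 0
      refine ⟨C + 1, fun t ht hcon => ?_⟩
      have := hC hcon
      simp at this
      linarith
    wlog hS0 : 0 ≤ S with Hgen
    · exact Hgen h x hB hinj hp 0 (fun t _ => hS t (by have := abs_nonneg t; linarith)) le_rfl
    refine ⟨-S, S, ?_⟩
    intro f θ hf hθ hfθ
    have h1 : ∀ t, S ≤ |t| → Circle.exp (θ t) = 1 := by
      intro t ht
      rw [hfθ]
      exact hf _ (h.q_flow _ _) (hS t ht)
    refine ⟨?_, ?_⟩
    · have : Circle.exp (θ S) = Circle.exp (θ (-S)) := by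
        rw [h1 S (le_abs_self S), h1 (-S) (by rw [abs_neg]; exact le_abs_self S)]
      obtain ⟨m, hm⟩ := Circle.exp_eq_exp.1 this
      exact ⟨m, by linarith⟩
    · intro hSS
      refine h.nullF_of_proper x hinj hθ hfθ (S := S) ?_
      intro t ht
      rcases le_total 0 t with ht0 | ht0
      · rw [abs_of_nonneg ht0] at ht
        refine constOn_of_exp (S := Ici S) isPreconnected_Ici hθ.continuousOn ?_ ht
          (mem_Ici.2 le_rfl)
        intro a ha b hb
        rw [h1 a (ha.trans (le_abs_self a)), h1 b (hb.trans (le_abs_self b))]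
      · rw [abs_of_nonpos ht0] at ht
        rw [hSS]
        refine constOn_of_exp (S := Iic (-S)) isPreconnected_Iic hθ.continuousOn ?_
          (mem_Iic.2 (by linarith)) (mem_Iic.2 le_rfl)
        intro a ha b hb
        rw [mem_Iic] at ha hb
        rw [h1 a (by linarith [neg_abs_le a]), h1 b (by linarith [neg_abs_le b])]

/-- a compactly supported function which is monotone along an orbit is constant -/
theorem const_of_monotone (x : M) {G : M → ℝ} {B : Set M} (hB : IsCompact B)
    (hG : ∀ z, q z = q x → z ∉ B → G z = 0) (hm : Monotone fun t => G (Φ t x)) (s t : ℝ) :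
    G (Φ s x) = G (Φ t x) := by
  rcases h.periodic_or_proper x with ⟨T, hT, hx⟩ | ⟨hinj, hp⟩
  · have hper : Function.Periodic (fun t => Φ t x) T := by
      intro t
      simp only
      rw [h.add, hx]
    have key : ∀ t, G (Φ t x) = G x := by
      intro t
      obtain ⟨n, hn⟩ := exists_nat_ge (|t| / T)
      rw [div_le_iff₀ hT] at hn
      have h1 : Φ (n * T) x = x := by
        have := hper.nat_mul n 0
        simpa [h.zero] using this
      have h2 : Φ (-(n * T)) x = x := by
        have := h.inv_flow (n * T) x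
        rwa [h1] at this
      have h3 := hm (show -(n * T) ≤ t by linarith [neg_abs_le t])
      have h4 := hm (show t ≤ n * T by linarith [le_abs_self t])
      simp only [h1, h2] at h3 h4
      exact le_antisymm h4 h3
    rw [key, key]
  · obtain ⟨C, hC⟩ := (hp B hB).isBounded.subset_closedBall 0
    have h0 : ∀ t, C < |t| → G (Φ t x) = 0 := by
      intro t ht
      apply hG _ (h.q_flow _ _)
      intro hcon
      have := hC hcon
      simp at this
      linarith
    have key : ∀ t, G (Φ t x) = 0 := by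
      intro t
      have h3 := hm (show -(|C| + |t| + 1) ≤ t by linarith [neg_abs_le t, abs_nonneg C])
      have h4 := hm (show t ≤ |C| + |t| + 1 by linarith [le_abs_self t, abs_nonneg C])
      have e1 : G (Φ (-(|C| + |t| + 1)) x) = 0 := by
        apply h0
        rw [abs_neg, abs_of_nonneg (by positivity)]
        linarith [le_abs_self C, abs_nonneg t]
      have e2 : G (Φ (|C| + |t| + 1) x) = 0 := by
        apply h0
        rw [abs_of_nonneg (by positivity)]
        linarith [le_abs_self C, abs_nonneg t]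
      simp only [e1, e2] at h3 h4
      exact le_antisymm h4 h3
    rw [key, key]

end FlowOrb

end Pool.Agent.MP74810d
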