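import Mathlib
import Pool.Agent.Lib.MP_74810d_gt.Orbit

/-!
A local detector of winding: a circle valued function supported in a small flow box whose
lifts along the orbits are monotone and not constant.
-/

open Metric Set Topology Filter MeasureTheory

namespace Pool.Agent.MP74810d

/-- right locally nondecreasing continuous functions are nondecreasing -/
theorem monotone_of_right_local {β : ℝ → ℝ} (hβ : Continuous β)
    (h : ∀ t, ∃ δ > 0, ∀ s, t < s → s < t + δ → β t ≤ β s) : Monotone β := by
  intro a b hab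
  have hcl : IsClosed ({s | β a ≤ β s} ∩ Icc a b) :=
    (isClosed_le continuous_const hβ).inter isClosed_Icc
  have hmem : a ∈ {s | β a ≤ β s} := le_refl (β a)
  have := hcl.Icc_subset_of_forall_exists_gt hmem (by
    rintro x ⟨hx1, hx2⟩ y hy
    obtain ⟨δ, hδ, hs⟩ := h x
    have hxy : x < y := hy
    refine ⟨min y (x + δ / 2), ?_, ?_, min_le_left _ _⟩
    · refine le_trans hx1 (hs _ (lt_min hxy (by linarith)) ?_)
      exact (min_le_right _ _).trans_lt (by linarith)
    · exact lt_min hxy (by linarith))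
  exact this ⟨hab, le_refl b⟩

variable {M Q : Type*} [MetricSpace M] [ProperSpace M] [TopologicalSpace Q] [T2Space Q]

/-- clamp to the unit interval -/
noncomputable def clampI (s : ℝ) : ℝ := (max (-1) (min 1 s) + 1) / 2

theorem continuous_clampI : Continuous clampI := by unfold clampI; fun_prop

theorem clampI_mono : Monotone clampI := by
  intro a b hab
  unfold clampI
  have : max (-1) (min 1 a) ≤ max (-1) (min 1 b) := max_le_max le_rfl (min_le_min le_rfl hab)
  linarith

theorem clampI_of_one_le {s : ℝ} (hs : 1 ≤ s) : clampI s = 1 := by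
  unfold clampI
  rw [min_eq_left hs, max_eq_right (by norm_num)]
  norm_num

theorem clampI_of_le {s : ℝ} (hs : s ≤ -1) : clampI s = 0 := by
  unfold clampI
  rw [max_eq_left ((min_le_right _ _).trans hs)]
  norm_num

theorem clampI_of_mem {s : ℝ} (hs : |s| < 1) : clampI s = (s + 1) / 2 := by
  rw [abs_lt] at hs
  unfold clampI
  rw [min_eq_right hs.2.le, max_eq_right hs.1.le]

theorem exp_clampI_of_abs {s : ℝ} (hs : 1 ≤ |s|) : Circle.exp (2 * Real.pi * clampI s) = 1 := by
  rcases le_abs'.1 hs with h1 | h1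
  · rw [clampI_of_le h1, mul_zero, Circle.exp_zero]
  · rw [clampI_of_one_le h1, mul_one, Circle.exp_two_pi]

namespace FlowOrb

variable {Φ : ℝ → M → M} {q : M → Q} (h : FlowOrb Φ q)
include h

omit [ProperSpace M] [T2Space Q] in
/-- a continuous function which is strictly increasing along the flow near a nonfixed point -/
theorem exists_local_time {x₀ : M} {τ : ℝ} (hτ : Φ τ x₀ ≠ x₀) :
    ∃ lam : M → ℝ, Continuous lam ∧ lam x₀ = 0 ∧ ∃ r₀ > 0, ∀ z : M, ∀ I : Set ℝ, Convex ℝ I →
      (∀ t ∈ I, dist (Φ t z) x₀ < r₀) → StrictMonoOn (fun t => lam (Φ t z)) I := by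
  set D : M → ℝ := fun z => dist z x₀ with hD
  have hDc : Continuous D := by simp only [hD]; fun_prop
  have hDf : Continuous fun p : M × ℝ => D (Φ p.2 p.1) :=
    hDc.comp (h.cont.comp (by fun_prop : Continuous fun p : M × ℝ => (p.2, p.1)))
  set lam0 : M → ℝ := fun z => ∫ s in (0 : ℝ)..τ, D (Φ s z) with hlam0
  have hlam0c : Continuous lam0 :=
    intervalIntegral.continuous_parametric_intervalIntegral_of_continuous'
      (f := fun z s => D (Φ s z)) hDf _ _
  have hder : ∀ z t, HasDerivAt (fun t => lam0 (Φ t z)) (D (Φ (τ + t) z) - D (Φ t z)) t := by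
    intro z t
    have hcz : Continuous fun s => D (Φ s z) := hDc.comp (h.cont_t z)
    have h1 : (fun t => lam0 (Φ t z)) = fun t => (∫ s in (0 : ℝ)..(τ + t), D (Φ s z)) -
        ∫ s in (0 : ℝ)..t, D (Φ s z) := by
      ext t
      have h2 : lam0 (Φ t z) = ∫ s in (0 + t)..(τ + t), D (Φ s z) := by
        simp only [hlam0]
        rw [← intervalIntegral.integral_comp_add_right (fun s => D (Φ s z))]
        simp [h.add]
      rw [h2, zero_add, eq_sub_iff_add_eq, add_comm]
      exact intervalIntegral.integral_add_adjacent_intervals (hcz.intervalIntegrable _ _)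
        (hcz.intervalIntegrable _ _)
    rw [h1]
    have e1 : HasDerivAt (fun t => ∫ s in (0 : ℝ)..t, D (Φ s z)) (D (Φ t z)) t :=
      hcz.integral_hasStrictDerivAt 0 t |>.hasDerivAt
    have e2 : HasDerivAt (fun t => ∫ s in (0 : ℝ)..t, D (Φ s z)) (D (Φ (τ + t) z)) (τ + t) :=
      hcz.integral_hasStrictDerivAt 0 (τ + t) |>.hasDerivAt
    have e3 : HasDerivAt (fun t => τ + t) 1 t := by
      simpa using (hasDerivAt_id t).const_add τ
    have e4 := e2.comp t e3
    simp only [mul_one] at e4
    exact e4.sub e1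
  have hmu : Continuous fun z => D (Φ τ z) - D z := (hDc.comp (h.cont_x τ)).sub hDc
  have hmu0 : 0 < D (Φ τ x₀) - D x₀ := by
    simp only [hD, dist_self, sub_zero]
    exact dist_pos.2 hτ
  obtain ⟨r₀, hr₀, hball⟩ := Metric.mem_nhds_iff.1 (hmu.continuousAt.preimage_mem_nhds
    (x := x₀) (Ioi_mem_nhds hmu0))
  refine ⟨fun z => lam0 z - lam0 x₀, by fun_prop, by simp, r₀, hr₀, ?_⟩
  intro z I hI hzI
  have hder' : ∀ t, HasDerivAt (fun t => lam0 (Φ t z) - lam0 x₀)
      (D (Φ (τ + t) z) - D (Φ t z)) t := fun t => (hder z t).sub_const _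
  refine strictMonoOn_of_deriv_pos hI (fun t _ => (hder' t).continuousAt.continuousWithinAt) ?_
  intro t ht
  rw [(hder' t).deriv]
  have := hball (show Φ t z ∈ ball x₀ r₀ from hzI t (interior_subset ht))
  simp only [mem_preimage, mem_Ioi] at this
  rwa [h.add]

/-- existence of the winding detector -/
theorem exists_bump {x₀ : M} {τ : ℝ} (hτ : Φ τ x₀ ≠ x₀) :
    ∃ W : Set Q, IsOpen W ∧ q x₀ ∈ W ∧ ∃ b : M → Circle, ContinuousOn b (q ⁻¹' W) ∧
      (∃ B : Set M, IsCompact B ∧ ∀ x, q x ∈ W → x ∉ B → b x = 1) ∧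
      ∀ x, q x ∈ W → ∃ β : ℝ → ℝ, Continuous β ∧ Monotone β ∧
        (∀ t, Circle.exp (β t) = b (Φ t x)) ∧ ∃ s t, β s ≠ β t := by
  obtain ⟨lam, hlam, hlam0, r₀, hr₀, hmono⟩ := h.exists_local_time hτ
  -- the orbit of `x₀` meets a small ball in a small arc
  obtain ⟨ε, hε, hεr⟩ : ∃ ε > 0, ∀ t, |t| < ε → dist (Φ t x₀) x₀ < r₀ := by
    have h1 : ∀ᶠ t in 𝓝 (0 : ℝ), dist (Φ t x₀) x₀ < r₀ := by
      have h2 : ContinuousAt (fun t => dist (Φ t x₀) x₀) 0 :=
        ((h.cont_t x₀).dist continuous_const).continuousAt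
      refine h2.eventually (gt_mem_nhds ?_)
      simp only
      rw [h.zero, dist_self]; exact hr₀
    obtain ⟨ε, hε, hh⟩ := Metric.eventually_nhds_iff.1 h1
    exact ⟨ε, hε, fun t ht => hh (by simpa using ht)⟩
  obtain ⟨r₁, hr₁, hr₁z⟩ := h.orbit_nhds x₀ hε
  have hiso : ∀ z, q z = q x₀ → dist z x₀ < r₁ → lam z = 0 → z = x₀ := by
    intro z hz hzd hlz
    obtain ⟨t, ht, rfl⟩ := hr₁z z hz hzd
    have hm := hmono x₀ (Ioo (-ε) ε) (convex_Ioo _ _)
      (fun t ht => hεr t (abs_lt.2 ⟨ht.1, ht.2⟩))
    have : t = 0 := by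
      apply hm.injOn (abs_lt.1 ht) (show (0 : ℝ) ∈ Ioo (-ε) ε by constructor <;> linarith)
      simp only
      rw [hlz, h.zero, hlam0]
    rw [this, h.zero]
  set r := min r₀ r₁ / 2 with hr
  have hmin : 0 < min r₀ r₁ := lt_min hr₀ hr₁
  have hrpos : 0 < r := by positivity
  have hrr₀ : r < r₀ := by have := min_le_left r₀ r₁; linarith
  have hrr₁ : r < r₁ := by have := min_le_right r₀ r₁; linarith
  -- the value of `lam` on the orbit at the sphere
  obtain ⟨η, hη, hηC⟩ : ∃ η > 0, ∀ z ∈ sphere x₀ r ∩ q ⁻¹' {q x₀}, η < |lam z| := by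
    have hC : IsCompact (sphere x₀ r ∩ q ⁻¹' {q x₀}) :=
      (isCompact_sphere x₀ r).inter_right (h.isClosed_fiber _)
    obtain ⟨a, ha, hab⟩ := hC.exists_forall_le' (f := fun z => |lam z|)
      (by fun_prop) (a := 0) (by
        rintro z ⟨hz1, hz2⟩
        rw [abs_pos]
        intro h0
        rw [mem_sphere] at hz1
        have := hiso z hz2 (by linarith) h0
        rw [this, dist_self] at hz1
        linarith)
    exact ⟨a / 2, by linarith, fun z hz => by have := hab z hz; linarith⟩
  have hE : IsCompact (sphere x₀ r ∩ {z | |lam z| ≤ η}) :=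
    (isCompact_sphere x₀ r).inter_right (isClosed_le (by fun_prop) continuous_const)
  set E := sphere x₀ r ∩ {z | |lam z| ≤ η} with hEdef
  obtain ⟨r', hr', hr'r, hr'η⟩ : ∃ r' > 0, r' ≤ r ∧ ∀ z, dist z x₀ < r' → |lam z| < η := by
    have h1 : ∀ᶠ z in 𝓝 x₀, |lam z| < η := by
      have h2 : ContinuousAt (fun z => |lam z|) x₀ := by fun_prop
      refine h2.eventually (gt_mem_nhds ?_)
      simp only
      rw [hlam0, abs_zero]; exact hη
    obtain ⟨r', hr', hh⟩ := Metric.eventually_nhds_iff.1 h1
    exact ⟨min r' r, lt_min hr' hrpos, min_le_right _ _, fun z hz =>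
      hh (lt_of_lt_of_le hz (min_le_left _ _))⟩
  set b : M → Circle := fun z => if dist z x₀ ≤ r then
    Circle.exp (2 * Real.pi * clampI (lam z / η)) else 1 with hb
  have hblt : ∀ z, dist z x₀ < r → b =ᶠ[𝓝 z]
      fun z => Circle.exp (2 * Real.pi * clampI (lam z / η)) := by
    intro z hz
    filter_upwards [isOpen_ball.mem_nhds (show z ∈ ball x₀ r from hz)] with w hw
    simp only [hb]
    rw [if_pos (le_of_lt hw)]
  have hbgt : ∀ z, r < dist z x₀ → b =ᶠ[𝓝 z] fun _ => 1 := by
    intro z hz
    have h1 : ∀ᶠ w in 𝓝 z, r < dist w x₀ :=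
      (continuous_id.dist continuous_const).continuousAt.eventually (lt_mem_nhds hz)
    filter_upwards [h1] with w hw
    simp only [hb]
    rw [if_neg (not_le.2 hw)]
  have hbeq : ∀ z, dist z x₀ = r → z ∉ E → b =ᶠ[𝓝 z] fun _ => 1 := by
    intro z hz hzE
    have h0 : η < |lam z| := by
      by_contra hcon
      push Not at hcon
      exact hzE ⟨hz, hcon⟩
    have h1 : ∀ᶠ w in 𝓝 z, η < |lam w| :=
      (continuous_abs.comp hlam).continuousAt.eventually (lt_mem_nhds h0)
    filter_upwards [h1] with w hw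
    simp only [hb]
    split_ifs with hwr
    · apply exp_clampI_of_abs
      rw [abs_div, abs_of_pos hη, le_div_iff₀ hη]
      linarith
    · rfl
  have hbcases : ∀ z, q z ∈ (q '' E)ᶜ → dist z x₀ < r ∨ b =ᶠ[𝓝 z] fun _ => 1 := by
    intro z hz
    rcases lt_trichotomy (dist z x₀) r with h1 | h1 | h1
    · exact Or.inl h1
    · exact Or.inr (hbeq z h1 (fun hzE => hz ⟨z, hzE, rfl⟩))
    · exact Or.inr (hbgt z h1)
  have hformc : Continuous fun z => Circle.exp (2 * Real.pi * clampI (lam z / η)) := by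
    have := continuous_clampI
    exact Circle.exp.continuous.comp (by fun_prop)
  have hbc : ∀ z, q z ∈ (q '' E)ᶜ → ContinuousAt b z := by
    intro z hz
    rcases hbcases z hz with h1 | h1
    · exact hformc.continuousAt.congr (hblt z h1).symm
    · exact continuousAt_const.congr h1.symm
  refine ⟨(q '' E)ᶜ ∩ q '' ball x₀ r', (hE.image h.qcont).isClosed.isOpen_compl.inter
    (h.qopen _ isOpen_ball), ⟨?_, ⟨x₀, mem_ball_self hr', rfl⟩⟩, b, ?_,
    ⟨closedBall x₀ r, isCompact_closedBall _ _, ?_⟩, ?_⟩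
  · rintro ⟨z, hz, hzx⟩
    have h1 := hηC z ⟨hz.1, hzx⟩
    have h2 : |lam z| ≤ η := hz.2
    linarith
  · intro z hz
    exact (hbc z hz.1).continuousWithinAt
  · intro z _ hzB
    rw [mem_closedBall] at hzB
    simp only [hb]
    rw [if_neg hzB]
  · rintro x ⟨hx1, x', hx', hxx'⟩
    have hxt : ∀ t, q (Φ t x) ∈ (q '' E)ᶜ := fun t => by rw [h.q_flow]; exact hx1
    have hbx : Continuous fun t => b (Φ t x) := by
      rw [continuous_iff_continuousAt]
      intro t
      exact ContinuousAt.comp (f := fun t => Φ t x) (hbc _ (hxt t)) (h.cont_t x).continuousAt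
    obtain ⟨β, hβ, hβb⟩ := exists_log_real _ hbx
    -- local comparison inside the ball
    have hin : ∀ t, dist (Φ t x) x₀ < r → ∃ δ > 0, (∀ s, |s - t| < δ →
        β s - β t = 2 * Real.pi * (clampI (lam (Φ s x) / η) - clampI (lam (Φ t x) / η))) ∧
        StrictMonoOn (fun s => lam (Φ s x)) (ball t δ) := by
      intro t ht
      have h1 : ∀ᶠ s in 𝓝 t, dist (Φ s x) x₀ < r := by
        have h2 : ContinuousAt (fun s => dist (Φ s x) x₀) t :=
          ((h.cont_t x).dist continuous_const).continuousAt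
        exact h2.eventually (gt_mem_nhds ht)
      obtain ⟨δ, hδ, hs⟩ := Metric.eventually_nhds_iff.1 h1
      refine ⟨δ, hδ, ?_, hmono x _ (convex_ball t δ) (fun s hs' => (hs hs').trans hrr₀)⟩
      intro s hst
      have hconst : ∀ u ∈ ball t δ, ∀ v ∈ ball t δ,
          Circle.exp (β u - 2 * Real.pi * clampI (lam (Φ u x) / η)) =
          Circle.exp (β v - 2 * Real.pi * clampI (lam (Φ v x) / η)) := by
        have h3 : ∀ u ∈ ball t δ,
            Circle.exp (β u - 2 * Real.pi * clampI (lam (Φ u x) / η)) = 1 := by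
          intro u hu
          rw [Circle.exp_sub, hβb, (hblt _ (hs hu)).eq_of_nhds, div_self']
        intro u hu v hv
        rw [h3 u hu, h3 v hv]
      have hcc : Continuous fun u => β u - 2 * Real.pi * clampI (lam (Φ u x) / η) := by
        have h4 := continuous_clampI
        have h5 : Continuous fun u => lam (Φ u x) := hlam.comp (h.cont_t x)
        exact hβ.sub (continuous_const.mul (h4.comp (h5.div_const η)))
      have := constOn_of_exp (S := ball t δ) (convex_ball t δ).isPreconnected
        hcc.continuousOn hconst (s := s) (t := t) (by simpa [Real.dist_eq] using hst)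
        (mem_ball_self hδ)
      linarith
    have hout : ∀ t, (b =ᶠ[𝓝 (Φ t x)] fun _ => 1) → ∃ δ > 0, ∀ s, |s - t| < δ → β s = β t := by
      intro t ht
      have h1 : ∀ᶠ s in 𝓝 t, b (Φ s x) = 1 := (h.cont_t x).continuousAt.eventually ht
      obtain ⟨δ, hδ, hs⟩ := Metric.eventually_nhds_iff.1 h1
      refine ⟨δ, hδ, ?_⟩
      intro s hst
      refine constOn_of_exp (S := ball t δ) (convex_ball t δ).isPreconnected
        hβ.continuousOn ?_ (s := s) (t := t) (by simpa [Real.dist_eq] using hst)
        (mem_ball_self hδ)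
      intro u hu v hv
      rw [hβb, hβb, hs hu, hs hv]
    refine ⟨β, hβ, ?_, hβb, ?_⟩
    · refine monotone_of_right_local hβ ?_
      intro t
      rcases hbcases _ (hxt t) with h1 | h1
      · obtain ⟨δ, hδ, hs, hm⟩ := hin t h1
        refine ⟨δ, hδ, ?_⟩
        intro s hts hsd
        have hst : |s - t| < δ := by rw [abs_lt]; constructor <;> linarith
        have h2 := hs s hst
        have h3 : lam (Φ t x) ≤ lam (Φ s x) := by
          have := hm (mem_ball_self hδ) (show s ∈ ball t δ by simpa [Real.dist_eq] using hst) hts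
          exact this.le
        have h4 : clampI (lam (Φ t x) / η) ≤ clampI (lam (Φ s x) / η) :=
          clampI_mono (by gcongr)
        have h5 : 0 ≤ 2 * Real.pi * (clampI (lam (Φ s x) / η) - clampI (lam (Φ t x) / η)) := by
          have := Real.pi_pos
          have : 0 ≤ clampI (lam (Φ s x) / η) - clampI (lam (Φ t x) / η) := by linarith
          positivity
        linarith
      · obtain ⟨δ, hδ, hs⟩ := hout t h1
        refine ⟨δ, hδ, ?_⟩
        intro s hts hsd
        rw [hs s (by rw [abs_lt]; constructor <;> linarith)]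
    · obtain ⟨t₀, rfl⟩ := (h.fib _ _).1 hxx'.symm
      have hx'' : dist (Φ t₀ x) x₀ < r' := hx'
      obtain ⟨δ, hδ, hs, hm⟩ := hin t₀ (hx''.trans_le hr'r)
      have h1 : ∀ᶠ s in 𝓝 t₀, dist (Φ s x) x₀ < r' := by
        have h2 : ContinuousAt (fun s => dist (Φ s x) x₀) t₀ :=
          ((h.cont_t x).dist continuous_const).continuousAt
        exact h2.eventually (gt_mem_nhds hx'')
      obtain ⟨δ', hδ', hs'⟩ := Metric.eventually_nhds_iff.1 h1
      set s := t₀ + min δ δ' / 2 with hsdef
      have hmd : 0 < min δ δ' := lt_min hδ hδ'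
      have hst : |s - t₀| < δ := by
        rw [hsdef, add_sub_cancel_left, abs_of_pos (by positivity)]
        have := min_le_left δ δ'
        linarith
      have hst' : |s - t₀| < δ' := by
        rw [hsdef, add_sub_cancel_left, abs_of_pos (by positivity)]
        have := min_le_right δ δ'
        linarith
      refine ⟨s, t₀, ?_⟩
      have h2 := hs s hst
      have h3 : lam (Φ t₀ x) < lam (Φ s x) :=
        hm (mem_ball_self hδ) (show s ∈ ball t₀ δ by simpa [Real.dist_eq] using hst)
          (by rw [hsdef]; linarith)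
      have habs : ∀ z, dist z x₀ < r' → |lam z / η| < 1 := by
        intro z hz
        rw [abs_div, abs_of_pos hη, div_lt_one hη]
        exact hr'η z hz
      rw [clampI_of_mem (habs _ hx''), clampI_of_mem (habs _ (hs' (by
        simpa [Real.dist_eq] using hst')))] at h2
      intro heq
      rw [heq, sub_self] at h2
      have h5 : 0 < (lam (Φ s x) / η + 1) / 2 - (lam (Φ t₀ x) / η + 1) / 2 := by
        have : lam (Φ t₀ x) / η < lam (Φ s x) / η := by gcongr
        linarith
      have := Real.pi_pos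
      have : 0 < 2 * Real.pi * ((lam (Φ s x) / η + 1) / 2 - (lam (Φ t₀ x) / η + 1) / 2) := by
        positivity
      linarith

end FlowOrb

end Pool.Agent.MP74810d
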