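import Mathlib

/-!
Spheres of dimension at least two are simply connected.
-/

open Metric Set Topology
open scoped unitInterval RealInnerProductSpace

namespace Pool.Agent.MP74810d

section
variable {E : Type*} [NormedAddCommGroup E] [InnerProductSpace ℝ E]

theorem isSimplyConnected_sphere_compl (v : sphere (0 : E) 1) :
    IsSimplyConnected ({v}ᶜ : Set (sphere (0 : E) 1)) := by
  have hv : ‖(v : E)‖ = 1 := by simp
  have e := (stereographic hv).toHomeomorphSourceTarget
  rw [stereographic_source, stereographic_target] at e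
  have e2 : ({v}ᶜ : Set (sphere (0 : E) 1)) ≃ₜ (ℝ ∙ (v : E))ᗮ :=
    e.trans (Homeomorph.Set.univ _)
  exact e2.toHomotopyEquiv.simplyConnectedSpace

theorem loop_null_of_misses (v x : sphere (0 : E) 1) (γ : Path x x) (h : ∀ t, γ t ≠ v) :
    γ.Homotopic (Path.refl x) := by
  obtain ⟨F, -⟩ := (isSimplyConnected_iff_exists_homotopy_refl_forall_mem.1
    (isSimplyConnected_sphere_compl v)).2 x γ (fun t => by simpa using h t)
  exact ⟨F⟩

/-- normalisation of a nonzero vector to the unit sphere -/
noncomputable def nrm (w : E) (hw : w ≠ 0) : sphere (0 : E) 1 :=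
  ⟨‖w‖⁻¹ • w, by
    have : ‖w‖ ≠ 0 := norm_ne_zero_iff.2 hw
    simp [norm_smul, this]⟩

theorem continuous_nrm {X : Type*} [TopologicalSpace X] {f : X → E} (hf : Continuous f)
    (h : ∀ x, f x ≠ 0) : Continuous fun x => nrm (f x) (h x) := by
  unfold nrm
  refine Continuous.subtype_mk ?_ _
  exact (hf.norm.inv₀ (fun x => norm_ne_zero_iff.2 (h x))).smul hf

theorem nrm_of_mem (w : sphere (0 : E) 1) (hw : (w : E) ≠ 0) : nrm (w : E) hw = w := by
  apply Subtype.ext
  simp [nrm]

theorem nrm_congr {w w' : E} (hw : w ≠ 0) (h : w = w') : nrm w hw = nrm w' (h ▸ hw) := by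
  subst h; rfl

theorem exists_close_smooth [FiniteDimensional ℝ E] (γ : I → E) (hγ : Continuous γ) :
    ∃ c : ℝ → E, ContDiff ℝ 1 c ∧ (∀ t : I, ‖c t - γ t‖ < 1) ∧ c 0 = γ 0 ∧ c 1 = γ 1 := by
  classical
  set b := stdOrthonormalBasis ℝ E
  set m := Module.finrank ℝ E with hm
  -- coordinate functions
  set ε : ℝ := 1 / (4 * ((m : ℝ) + 1)) with hε
  have hεpos : 0 < ε := by positivity
  have key : ∀ i : Fin m, ∃ p : Polynomial ℝ, ∀ t : I, |p.eval (t : ℝ) - ⟪b i, γ t⟫| < ε := by
    intro i
    obtain ⟨p, hp⟩ := exists_polynomial_near_continuousMap 0 1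
      (⟨fun t : I => ⟪b i, γ t⟫, by fun_prop⟩ : C(I, ℝ)) ε hεpos
    refine ⟨p, fun t => ?_⟩
    have := (ContinuousMap.norm_lt_iff _ hεpos).1 hp t
    simpa using this
  choose p hp using key
  let g : Fin m → I → ℝ := fun i t => ⟪b i, γ t⟫
  let e : Fin m → ℝ → ℝ := fun i t =>
    (p i).eval t + (1 - t) * (g i 0 - (p i).eval 0) + t * (g i 1 - (p i).eval 1)
  have he : ∀ i, ∀ t : I, |e i t - g i t| ≤ 2 * ε := by
    intro i t
    have h1 : |(p i).eval (t : ℝ) - g i t| < ε := hp i t
    have h2 : |(p i).eval 0 - g i 0| < ε := by simpa using hp i 0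
    have h3 : |(p i).eval 1 - g i 1| < ε := by simpa using hp i 1
    have ht0 : (0 : ℝ) ≤ t := t.2.1
    have ht1 : (t : ℝ) ≤ 1 := t.2.2
    rw [abs_lt] at h1 h2 h3
    rw [abs_le]
    simp only [e]
    constructor <;> nlinarith
  have hsum : ∀ t : I, γ t = ∑ i, g i t • b i := by
    intro t
    have := b.sum_repr (γ t)
    rw [← this]
    simp [g, OrthonormalBasis.repr_apply_apply]
  refine ⟨fun t => ∑ i, e i t • b i, ?_, ?_, ?_, ?_⟩
  · apply ContDiff.sum
    intro i _
    apply ContDiff.smul _ contDiff_const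
    simp only [e]
    have : ContDiff ℝ 1 fun t : ℝ => (p i).eval t := by
      simpa using (p i).contDiff_aeval (𝕜 := ℝ) 1
    fun_prop
  · intro t
    rw [hsum t, ← Finset.sum_sub_distrib]
    calc ‖∑ i, (e i t • b i - g i t • b i)‖
        ≤ ∑ i : Fin m, ‖(e i t • b i - g i t • b i)‖ := norm_sum_le _ _
      _ ≤ ∑ _i : Fin m, 2 * ε := by
          apply Finset.sum_le_sum
          intro i _
          rw [← sub_smul, norm_smul, b.norm_eq_one, mul_one]
          exact he i t
      _ = m * (2 * ε) := by simp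
      _ < 1 := by
          rw [hε]
          have : (0 : ℝ) ≤ m := Nat.cast_nonneg m
          rw [show (m : ℝ) * (2 * (1 / (4 * ((m : ℝ) + 1)))) = m / (2 * (m + 1)) by
            field_simp; ring]
          rw [div_lt_one (by positivity)]
          linarith
  · rw [hsum 0]
    simp [e, g]
  · rw [hsum 1]
    simp [e, g]

theorem sphere_loop_null [FiniteDimensional ℝ E] (hE : 2 < Module.finrank ℝ E)
    (x : sphere (0 : E) 1) (γ : Path x x) : γ.Homotopic (Path.refl x) := by
  obtain ⟨c, hc, hcl, hc0, hc1⟩ := exists_close_smooth (fun t => (γ t : E)) (by fun_prop)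
  -- a direction missed by the cone over `c`
  have hcone : ContDiff ℝ 1 (fun z : ℝ × ℝ => z.2 • c z.1) := by
    have := hc
    fun_prop
  have hd := hcone.dense_compl_range_of_finrank_lt_finrank (by simpa using hE)
  obtain ⟨w, hw⟩ := hd.nonempty
  have hw0 : w ≠ 0 := by
    rintro rfl
    exact hw ⟨(0, 0), by simp⟩
  have hne : ∀ s t : I, (1 - (s : ℝ)) • (γ t : E) + (s : ℝ) • c t ≠ 0 := by
    intro s t h0
    have h1 : ‖(γ t : E)‖ = 1 := by simp
    have h2 : (γ t : E) = -((s : ℝ) • (c t - γ t)) := by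
      have : (1 - (s : ℝ)) • (γ t : E) + (s : ℝ) • c t = γ t + (s : ℝ) • (c t - γ t) := by
        rw [sub_smul, smul_sub, one_smul]; abel
      rw [this] at h0
      exact eq_neg_of_add_eq_zero_left h0
    have h3 : ‖(γ t : E)‖ = (s : ℝ) * ‖c t - γ t‖ := by
      conv_lhs => rw [h2]
      rw [norm_neg, norm_smul, Real.norm_of_nonneg s.2.1]
    have h4 := hcl t
    have h5 : (s : ℝ) ≤ 1 := s.2.2
    have h6 : (0 : ℝ) ≤ s := s.2.1
    have h7 : 0 ≤ ‖c t - γ t‖ := norm_nonneg _
    nlinarith
  have hcne : ∀ t : I, c t ≠ 0 := by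
    intro t
    have := hne 1 t
    simpa using this
  have hxne : (x : E) ≠ 0 := by
    intro h
    have : ‖(x : E)‖ = 1 := by simp
    rw [h] at this
    simp at this
  let γ' : Path x x :=
    { toFun := fun t => nrm (c t) (hcne t)
      continuous_toFun := by
        apply continuous_nrm (f := fun t : I => c t)
        exact hc.continuous.comp continuous_subtype_val
      source' := by
        have h : c ((0 : I) : ℝ) = x := by simpa using hc0
        rw [nrm_congr (hcne 0) h, nrm_of_mem]
      target' := by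
        have h : c ((1 : I) : ℝ) = x := by simpa using hc1
        rw [nrm_congr (hcne 1) h, nrm_of_mem] }
  have hhom : γ.Homotopic γ' := by
    refine ⟨{ toFun := fun z => nrm ((1 - (z.1 : ℝ)) • (γ z.2 : E) + (z.1 : ℝ) • c z.2)
                (hne z.1 z.2)
              continuous_toFun := ?_
              map_zero_left := ?_
              map_one_left := ?_
              prop' := ?_ }⟩
    · apply continuous_nrm (f := fun z : I × I =>
        (1 - (z.1 : ℝ)) • (γ z.2 : E) + (z.1 : ℝ) • c z.2)
      have := hc.continuous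
      fun_prop
    · intro t
      have h : (1 - ((0 : I) : ℝ)) • (γ t : E) + ((0 : I) : ℝ) • c t = γ t := by simp
      change nrm _ (hne 0 t) = γ t
      rw [nrm_congr (hne 0 t) h, nrm_of_mem]
    · intro t
      have h : (1 - ((1 : I) : ℝ)) • (γ t : E) + ((1 : I) : ℝ) • c t = c t := by simp
      change nrm _ (hne 1 t) = nrm _ (hcne t)
      rw [nrm_congr (hne 1 t) h]
    · intro s t ht
      rcases ht with rfl | ht
      · have h : (1 - (s : ℝ)) • (γ 0 : E) + (s : ℝ) • c ((0 : I) : ℝ) = x := by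
          have : c ((0 : I) : ℝ) = x := by simpa using hc0
          rw [this, Path.source, ← add_smul]; simp
        change nrm _ (hne s 0) = γ 0
        rw [nrm_congr (hne s 0) h, nrm_of_mem]; simp
      · rw [mem_singleton_iff] at ht
        subst ht
        have h : (1 - (s : ℝ)) • (γ 1 : E) + (s : ℝ) • c ((1 : I) : ℝ) = x := by
          have : c ((1 : I) : ℝ) = x := by simpa using hc1
          rw [this, Path.target, ← add_smul]; simp
        change nrm _ (hne s 1) = γ 1
        rw [nrm_congr (hne s 1) h, nrm_of_mem]; simp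
  refine hhom.trans (loop_null_of_misses (nrm w hw0) x γ' ?_)
  intro t ht
  have h1 : ‖c t‖⁻¹ • c t = ‖w‖⁻¹ • w := congrArg Subtype.val ht
  apply hw
  refine ⟨(t, ‖w‖ * ‖c t‖⁻¹), ?_⟩
  have hwn : ‖w‖ ≠ 0 := norm_ne_zero_iff.2 hw0
  simp only [mul_smul, h1]
  rw [smul_smul, mul_inv_cancel₀ hwn, one_smul]

theorem sphere_simplyConnected [FiniteDimensional ℝ E] (hE : 2 < Module.finrank ℝ E) :
    SimplyConnectedSpace (sphere (0 : E) 1) := by
  rw [simply_connected_iff_loops_nullhomotopic]
  refine ⟨?_, fun x γ => sphere_loop_null hE x γ⟩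
  rw [← isPathConnected_iff_pathConnectedSpace]
  apply isPathConnected_sphere _ _ zero_le_one
  rw [← Module.finrank_eq_rank]
  exact_mod_cast (by omega : 1 < Module.finrank ℝ E)

end

end Pool.Agent.MP74810d
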