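import Mathlib
import Pool.Agent.Lib.MP_74810d_gt.SphereSC

/-!
Continuous logarithms of circle valued functions.
-/

open Metric Set Topology
open scoped unitInterval RealInnerProductSpace

namespace Pool.Agent.MP74810d

theorem prod_simplyConnected {X Y : Type*} [TopologicalSpace X] [TopologicalSpace Y]
    [SimplyConnectedSpace X] [SimplyConnectedSpace Y] : SimplyConnectedSpace (X × Y) := by
  rw [simply_connected_iff_loops_nullhomotopic]
  refine ⟨inferInstance, ?_⟩
  rintro ⟨x, y⟩ γ
  obtain ⟨F⟩ := SimplyConnectedSpace.paths_homotopic (γ.map continuous_fst) (Path.refl x)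
  obtain ⟨G⟩ := SimplyConnectedSpace.paths_homotopic (γ.map continuous_snd) (Path.refl y)
  exact ⟨Path.Homotopic.prodHomotopy F G⟩

theorem exists_log {X : Type*} [TopologicalSpace X] [SimplyConnectedSpace X]
    [LocallyPathConnectedSpace X] (f : X → Circle) (hf : Continuous f) :
    ∃ g : X → ℝ, Continuous g ∧ ∀ x, Circle.exp (g x) = f x := by
  obtain ⟨x0⟩ : Nonempty X := inferInstance
  obtain ⟨e0, he0⟩ : ∃ e0 : ℝ, Circle.exp e0 = f x0 :=
    ⟨Complex.arg (f x0), Circle.exp_arg (f x0)⟩
  obtain ⟨F, ⟨-, hF⟩, -⟩ := Circle.isCoveringMap_exp.existsUnique_continuousMap_lifts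
    ⟨f, hf⟩ x0 e0 he0
  exact ⟨F, F.continuous, fun x => congrFun hF x⟩

variable {E : Type*} [NormedAddCommGroup E] [InnerProductSpace ℝ E] [FiniteDimensional ℝ E]

theorem sphere_locallyPathConnected (hE : 0 < Module.finrank ℝ E) :
    LocallyPathConnectedSpace (sphere (0 : E) 1) := by
  obtain ⟨n, hn⟩ : ∃ n, Module.finrank ℝ E = n + 1 := ⟨Module.finrank ℝ E - 1, by omega⟩
  haveI : Fact (Module.finrank ℝ E = n + 1) := ⟨hn⟩
  exact ChartedSpace.locallyPathConnectedSpace (EuclideanSpace ℝ (Fin n)) (sphere (0 : E) 1)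

/-- a circle valued continuous function on the outside of a closed ball, in dimension at least
three, agrees outside any larger open ball with the exponential of a globally defined
continuous real function. -/
theorem exists_log_outside (hE : 2 < Module.finrank ℝ E) {R R' : ℝ} (hR : 0 ≤ R) (hRR' : R < R')
    (f : E → Circle) (hf : ContinuousOn f {x | R < ‖x‖}) :
    ∃ g : E → ℝ, Continuous g ∧ ∀ x, R' ≤ ‖x‖ → Circle.exp (g x) = f x := by
  haveI := sphere_simplyConnected hE
  haveI := sphere_locallyPathConnected (E := E) (by omega)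
  haveI : SimplyConnectedSpace (sphere (0 : E) 1 × ℝ) := prod_simplyConnected
  -- polar coordinates
  let P : sphere (0 : E) 1 × ℝ → E := fun z => (R + Real.exp z.2) • (z.1 : E)
  have hPn : ∀ z, ‖P z‖ = R + Real.exp z.2 := by
    intro z
    have : 0 < R + Real.exp z.2 := by positivity
    simp [P, norm_smul, abs_of_pos this]
  have hPR : ∀ z, R < ‖P z‖ := by
    intro z; rw [hPn]; linarith [Real.exp_pos z.2]
  have hPc : Continuous P := by
    simp only [P]; fun_prop
  obtain ⟨g, hg, hgf⟩ := exists_log (fun z => f (P z))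
    (hf.comp_continuous hPc (fun z => hPR z))
  have hxne : ∀ x : {x : E | R' ≤ ‖x‖}, (x : E) ≠ 0 := by
    rintro ⟨x, hx⟩ h0
    simp only [mem_setOf_eq] at hx h0
    subst h0
    simp at hx; linarith
  -- the inverse of polar coordinates on the closed set
  let Qm : {x : E | R' ≤ ‖x‖} → sphere (0 : E) 1 × ℝ := fun x =>
    (nrm (x : E) (hxne x), Real.log (‖(x : E)‖ - R))
  have hQc : Continuous Qm := by
    refine (continuous_nrm continuous_subtype_val hxne).prodMk ?_
    refine Continuous.log (by fun_prop) ?_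
    rintro ⟨x, hx⟩
    simp only [mem_setOf_eq] at hx
    simp only
    linarith
  have hPQ : ∀ x : {x : E | R' ≤ ‖x‖}, P (Qm x) = x := by
    rintro ⟨x, hx⟩
    have hx' : R' ≤ ‖x‖ := hx
    have h1 : ‖x‖ ≠ 0 := norm_ne_zero_iff.2 (hxne ⟨x, hx⟩)
    simp only [P, Qm, nrm]
    rw [Real.exp_log (by linarith), smul_smul]
    rw [show (R + (‖x‖ - R)) * ‖x‖⁻¹ = 1 by field_simp; ring, one_smul]
  have hclosed : IsClosed {x : E | R' ≤ ‖x‖} := isClosed_le continuous_const continuous_norm
  obtain ⟨G, hG⟩ := ContinuousMap.exists_restrict_eq hclosed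
    (⟨fun x => g (Qm x), hg.comp hQc⟩ : C({x : E | R' ≤ ‖x‖}, ℝ))
  refine ⟨G, G.continuous, fun x hx => ?_⟩
  have h1 : G x = g (Qm ⟨x, hx⟩) := by
    have := congrArg (fun F : C({x : E | R' ≤ ‖x‖}, ℝ) => F ⟨x, hx⟩) hG
    simpa using this
  rw [h1, hgf, hPQ]

end Pool.Agent.MP74810d
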