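import Mathlib

/-!
The Hopf fibration in quaternionic form, and lifting of maps from a finite dimensional
real inner product space to the two-sphere through the Hopf fibration.
-/

open Metric Set Topology Quaternion
open scoped Quaternion

namespace Pool.Agent.MP74810d

/-- the quaternion unit `i` -/
noncomputable def qi : ℍ := ⟨0, 1, 0, 0⟩

@[simp] theorem qi_re : qi.re = 0 := rfl
@[simp] theorem qi_imI : qi.imI = 1 := rfl
@[simp] theorem qi_imJ : qi.imJ = 0 := rfl
@[simp] theorem qi_imK : qi.imK = 0 := rfl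

/-- the quaternion unit `j` -/
noncomputable def qj : ℍ := ⟨0, 0, 1, 0⟩
@[simp] theorem qj_re : qj.re = 0 := rfl
@[simp] theorem qj_imI : qj.imI = 0 := rfl
@[simp] theorem qj_imJ : qj.imJ = 1 := rfl
@[simp] theorem qj_imK : qj.imK = 0 := rfl

theorem qi_mul_qi : qi * qi = -1 := by
  ext <;> simp

theorem norm_qi : ‖qi‖ = 1 := by
  have h : ‖qi‖ * ‖qi‖ = 1 := by
    rw [← norm_mul, qi_mul_qi, norm_neg, norm_one]
  have h0 : 0 ≤ ‖qi‖ := norm_nonneg _
  nlinarith

/-- `u` is a unit quaternion in the Hopf fibre over `p` -/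
def Over (p u : ℍ) : Prop := ‖u‖ = 1 ∧ u * qi = p * u

theorem Over.ne_zero {p u : ℍ} (h : Over p u) : u ≠ 0 := by
  intro h0
  have := h.1
  rw [h0] at this
  simp at this

theorem star_mul_self_of_norm {u : ℍ} (h : ‖u‖ = 1) : star u * u = 1 := by
  rw [Quaternion.star_mul_self, Quaternion.normSq_eq_norm_mul_self, h]; simp

theorem self_mul_star_of_norm {u : ℍ} (h : ‖u‖ = 1) : u * star u = 1 := by
  rw [Quaternion.self_mul_star, Quaternion.normSq_eq_norm_mul_self, h]; simp

/-- unnormalised transport of `v` to the fibre over `p` -/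
noncomputable def tr (p v : ℍ) : ℍ := v - p * v * qi

theorem tr_mul_qi {p : ℍ} (hp : p * p = -1) (v : ℍ) : tr p v * qi = p * tr p v := by
  unfold tr
  rw [sub_mul, mul_sub, mul_assoc (p * v) qi qi, qi_mul_qi]
  rw [show p * (p * v * qi) = (p * p) * v * qi by simp only [mul_assoc], hp]
  simp
  abel

theorem tr_of_over {p u : ℍ} (h : Over p u) : tr p u = (2 : ℝ) • u := by
  unfold tr
  rw [← h.2, mul_assoc, qi_mul_qi]
  rw [two_smul]; simp

theorem norm_tr_sub_le (p p₀ u : ℍ) (hu : ‖u‖ = 1) : ‖tr p u - tr p₀ u‖ ≤ ‖p - p₀‖ := by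
  have : tr p u - tr p₀ u = -((p - p₀) * u * qi) := by
    unfold tr
    rw [sub_mul, sub_mul]; abel
  rw [this, norm_neg, norm_mul, norm_mul, hu, norm_qi]
  simp

theorem tr_ne_zero {p p₀ u : ℍ} (h : Over p₀ u) (hp : ‖p - p₀‖ < 2) : tr p u ≠ 0 := by
  intro h0
  have h1 := norm_tr_sub_le p p₀ u h.1
  rw [h0, tr_of_over h, zero_sub, norm_neg, norm_smul, h.1] at h1
  simp at h1
  linarith

/-- transport of `v` to the fibre over `p` -/
noncomputable def nu (p v : ℍ) : ℍ := (‖tr p v‖⁻¹ : ℝ) • tr p v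

theorem over_nu {p v : ℍ} (hp : p * p = -1) (hv : tr p v ≠ 0) : Over p (nu p v) := by
  have hn : ‖tr p v‖ ≠ 0 := norm_ne_zero_iff.2 hv
  refine ⟨?_, ?_⟩
  · unfold nu
    rw [norm_smul, norm_inv, norm_norm, inv_mul_cancel₀ hn]
  · unfold nu
    rw [smul_mul_assoc, tr_mul_qi hp, mul_smul_comm]

theorem nu_of_over {p u : ℍ} (h : Over p u) : nu p u = u := by
  unfold nu
  rw [tr_of_over h, norm_smul, h.1, smul_smul]
  simp

theorem continuous_tr : Continuous fun z : ℍ × ℍ => tr z.1 z.2 := by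
  unfold tr; fun_prop

theorem ContinuousOn.nu' {X : Type*} [TopologicalSpace X] {s : Set X} {p v : X → ℍ}
    (hp : ContinuousOn p s) (hv : ContinuousOn v s) (h : ∀ x ∈ s, tr (p x) (v x) ≠ 0) :
    ContinuousOn (fun x => nu (p x) (v x)) s := by
  have h1 : ContinuousOn (fun x => tr (p x) (v x)) s :=
    continuous_tr.comp_continuousOn (hp.prodMk hv)
  unfold nu
  exact (h1.norm.inv₀ (fun x hx => norm_ne_zero_iff.2 (h x hx))).smul h1

theorem continuous_nu {X : Type*} [TopologicalSpace X] {p v : X → ℍ}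
    (hp : Continuous p) (hv : Continuous v) (h : ∀ x, tr (p x) (v x) ≠ 0) :
    Continuous (fun x => nu (p x) (v x)) := by
  rw [← continuousOn_univ]
  exact ContinuousOn.nu' hp.continuousOn hv.continuousOn (fun x _ => h x)

/-- Homotopy lifting through the Hopf fibration. -/
theorem homotopy_lift {X : Type*} [TopologicalSpace X] (K : ℝ → X → ℍ)
    (hK : ∀ s, Continuous (K s)) (hKp : ∀ s x, K s x * K s x = -1) (N : ℕ) (hN : 0 < N)
    (hKN : ∀ k : ℕ, k < N → ∀ x, ‖K ((k + 1 : ℕ) / N) x - K (k / N) x‖ < 2)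
    (F : X → ℍ) (hF : Continuous F) (hFo : ∀ x, Over (K 0 x) (F x)) :
    ∃ G : X → ℍ, Continuous G ∧ (∀ x, Over (K 1 x) (G x)) ∧
      ∀ x, (∀ s, K s x = K 0 x) → G x = F x := by
  have key : ∀ k : ℕ, k ≤ N → ∃ G : X → ℍ, Continuous G ∧ (∀ x, Over (K (k / N) x) (G x)) ∧
      ∀ x, (∀ s, K s x = K 0 x) → G x = F x := by
    intro k
    induction k with
    | zero =>
      intro _
      exact ⟨F, hF, by simpa using hFo, fun x _ => rfl⟩
    | succ k ih =>
      intro hk
      obtain ⟨G, hG, hGo, hGF⟩ := ih (by omega)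
      have hne : ∀ x, tr (K ((k + 1 : ℕ) / N) x) (G x) ≠ 0 := fun x =>
        tr_ne_zero (hGo x) (hKN k (by omega) x)
      refine ⟨fun x => nu (K ((k + 1 : ℕ) / N) x) (G x), ?_, ?_, ?_⟩
      · exact continuous_nu (hK _) hG hne
      · intro x
        exact over_nu (hKp _ _) (hne x)
      · intro x hx
        simp only
        rw [hx, ← hx (k / N), nu_of_over (hGo x)]
        exact hGF x hx
  obtain ⟨G, hG, hGo, hGF⟩ := key N le_rfl
  have hN' : (N : ℝ) ≠ 0 := by positivity
  rw [div_self hN'] at hGo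
  exact ⟨G, hG, hGo, hGF⟩

/-- every imaginary unit is hit by the Hopf map -/
theorem exists_over {p : ℍ} (hp : p * p = -1) : ∃ u, Over p u := by
  by_cases h : tr p 1 = 0
  · -- then `p = -i`-like; use `j`
    have hj : tr p qj ≠ 0 := by
      intro h2
      unfold tr at h h2
      have e1 : p * qi = 1 := by
        rw [mul_one] at h
        exact (sub_eq_zero.1 h).symm
      have e2 : p = -qi := by
        have : p * qi * qi = qi := by rw [e1, one_mul]
        rw [mul_assoc, qi_mul_qi] at this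
        rw [← this]; simp
      rw [e2] at h2
      have := congrArg (fun q : ℍ => q.imJ) h2
      simp at this
    exact ⟨_, over_nu hp hj⟩
  · exact ⟨_, over_nu hp h⟩

end Pool.Agent.MP74810d
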