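import Mathlib
import Pool.Agent.Lib.MP_74810d_gt.Hopf

/-!
The circle valued ratio of two points in the same Hopf fibre.
-/

open Metric Set Topology Quaternion
open scoped Quaternion

namespace Pool.Agent.MP74810d

/-- complex numbers as quaternions -/
noncomputable def cq (z : ℂ) : ℍ := ⟨z.re, z.im, 0, 0⟩

@[simp] theorem cq_re (z : ℂ) : (cq z).re = z.re := rfl
@[simp] theorem cq_imI (z : ℂ) : (cq z).imI = z.im := rfl
@[simp] theorem cq_imJ (z : ℂ) : (cq z).imJ = 0 := rfl
@[simp] theorem cq_imK (z : ℂ) : (cq z).imK = 0 := rfl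

theorem cq_mul (z w : ℂ) : cq (z * w) = cq z * cq w := by
  ext <;> simp

theorem cq_one : cq 1 = 1 := by
  ext <;> simp

theorem cq_mul_qi (z : ℂ) : cq z * qi = qi * cq z := by
  ext <;> simp

theorem norm_cq (z : ℂ) : ‖cq z‖ = ‖z‖ := by
  have h1 : ‖cq z‖ * ‖cq z‖ = ‖z‖ * ‖z‖ := by
    rw [← Quaternion.normSq_eq_norm_mul_self, Quaternion.normSq_def', Complex.norm_mul_self_eq_normSq,
      Complex.normSq_apply]
    simp
    ring
  have h2 := norm_nonneg (cq z)
  have h3 := norm_nonneg z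
  nlinarith [sq_nonneg (‖cq z‖ - ‖z‖), mul_self_inj h2 h3]

theorem continuous_cq : Continuous cq := by
  have : cq = fun z : ℂ => (z.re : ℝ) • (1 : ℍ) + (z.im : ℝ) • qi := by
    ext z <;> simp
  rw [this]
  fun_prop

/-- the complex part of `star u * v` -/
noncomputable def rc (u v : ℍ) : ℂ := ⟨(star u * v).re, (star u * v).imI⟩

theorem continuous_rc : Continuous fun z : ℍ × ℍ => rc z.1 z.2 := by
  have h1 : Continuous fun z : ℍ × ℍ => (star z.1 * z.2).re :=
    Quaternion.continuous_re.comp (by fun_prop)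
  have h2 : Continuous fun z : ℍ × ℍ => (star z.1 * z.2).imI :=
    Quaternion.continuous_imI.comp (by fun_prop)
  have h3 : (fun z : ℍ × ℍ => rc z.1 z.2) = fun z => ((star z.1 * z.2).re : ℂ) +
      ((star z.1 * z.2).imI : ℂ) * Complex.I := by
    ext z
    apply Complex.ext <;> simp [rc]
  rw [h3]
  fun_prop

theorem exists_nc (z : ℂ) : ∃ w : Circle, z ≠ 0 → (w : ℂ) = (‖z‖⁻¹ : ℝ) • z := by
  by_cases h : z = 0
  · exact ⟨1, fun h' => absurd h h'⟩
  · have h1 : (‖z‖⁻¹ : ℝ) • z ∈ Submonoid.unitSphere ℂ := mem_sphere_zero_iff_norm.2 (by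
      rw [norm_smul, norm_inv, norm_norm, inv_mul_cancel₀ (norm_ne_zero_iff.2 h)])
    exact ⟨⟨_, h1⟩, fun _ => rfl⟩

/-- normalisation to the circle -/
noncomputable def nc (z : ℂ) : Circle := (exists_nc z).choose

theorem nc_coe {z : ℂ} (h : z ≠ 0) : (nc z : ℂ) = (‖z‖⁻¹ : ℝ) • z :=
  (exists_nc z).choose_spec h

theorem nc_of_norm {z : ℂ} (h : ‖z‖ = 1) : (nc z : ℂ) = z := by
  rw [nc_coe (by rw [← norm_ne_zero_iff, h]; norm_num), h]
  simp

theorem continuousAt_nc {z : ℂ} (h : z ≠ 0) : ContinuousAt nc z := by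
  have hemb : IsEmbedding (fun w : Circle => (w : ℂ)) := IsEmbedding.subtypeVal
  rw [hemb.continuousAt_iff]
  have h1 : (fun w : Circle => (w : ℂ)) ∘ nc =ᶠ[𝓝 z] fun w => (‖w‖⁻¹ : ℝ) • w := by
    filter_upwards [isOpen_ne.mem_nhds h] with w hw
    exact nc_coe hw
  refine ContinuousAt.congr ?_ h1.symm
  exact (continuous_norm.continuousAt.inv₀ (norm_ne_zero_iff.2 h)).smul continuousAt_id

/-- the ratio -/
noncomputable def rat (u v : ℍ) : Circle := nc (rc u v)

theorem norm_of_sq {p : ℍ} (hp : p * p = -1) : ‖p‖ = 1 := by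
  have h1 : ‖p‖ * ‖p‖ = 1 := by rw [← norm_mul, hp, norm_neg, norm_one]
  nlinarith [norm_nonneg p]

theorem star_of_sq {p : ℍ} (hp : p * p = -1) : star p = -p := by
  have h1 := star_mul_self_of_norm (norm_of_sq hp)
  have h2 : p * (-p) = 1 := by rw [mul_neg, hp, neg_neg]
  calc star p = star p * (p * (-p)) := by rw [h2, mul_one]
    _ = -p := by rw [← mul_assoc, h1, one_mul]

theorem star_qi : star qi = -qi := star_of_sq qi_mul_qi

theorem Over.star_comm {p u : ℍ} (hp : p * p = -1) (hu : Over p u) :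
    qi * star u = star u * p := by
  have h1 := congrArg star hu.2
  rw [star_mul, star_mul, star_qi, star_of_sq hp, neg_mul, mul_neg] at h1
  exact neg_injective h1

theorem cq_of_comm {w : ℍ} (hw : w * qi = qi * w) : w = cq ⟨w.re, w.imI⟩ := by
  have h1 := congrArg (fun q : ℍ => q.imJ) hw
  have h2 := congrArg (fun q : ℍ => q.imK) hw
  simp at h1 h2
  ext
  · simp
  · simp
  · simp; linarith
  · simp; linarith

theorem Over.star_mul_eq {p u v : ℍ} (hp : p * p = -1) (hu : Over p u) (hv : Over p v) :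
    star u * v = cq (rc u v) := by
  apply cq_of_comm
  rw [mul_assoc, hv.2, ← mul_assoc, ← hu.star_comm hp, mul_assoc]

theorem Over.norm_rc {p u v : ℍ} (hp : p * p = -1) (hu : Over p u) (hv : Over p v) :
    ‖rc u v‖ = 1 := by
  rw [← norm_cq, ← hu.star_mul_eq hp hv, norm_mul, norm_star, hu.1, hv.1, mul_one]

theorem Over.rat_coe {p u v : ℍ} (hp : p * p = -1) (hu : Over p u) (hv : Over p v) :
    (rat u v : ℂ) = rc u v := nc_of_norm (hu.norm_rc hp hv)

theorem Over.eq_mul_rat {p u v : ℍ} (hp : p * p = -1) (hu : Over p u) (hv : Over p v) :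
    v = u * cq (rat u v) := by
  rw [hu.rat_coe hp hv, ← hu.star_mul_eq hp hv, ← mul_assoc, self_mul_star_of_norm hu.1, one_mul]

theorem Over.mul_cq {p u : ℍ} (hu : Over p u) (ζ : Circle) : Over p (u * cq ζ) := by
  refine ⟨?_, ?_⟩
  · rw [norm_mul, hu.1, norm_cq, Circle.norm_coe, mul_one]
  · rw [mul_assoc, cq_mul_qi, ← mul_assoc, hu.2, mul_assoc]

theorem rat_mul_self {u : ℍ} (hu : ‖u‖ = 1) (ζ : Circle) : rat u (u * cq ζ) = ζ := by
  have h1 : rc u (u * cq ζ) = ζ := by
    unfold rc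
    rw [← mul_assoc, star_mul_self_of_norm hu, one_mul]
    apply Complex.ext <;> simp
  apply Circle.ext
  unfold rat
  rw [nc_of_norm (by rw [h1, Circle.norm_coe]), h1]

theorem Over.rat_trans {p u v w : ℍ} (hp : p * p = -1) (hu : Over p u) (hv : Over p v)
    (hw : Over p w) : rat u v * rat v w = rat u w := by
  have h1 : w = u * cq ((rat u v * rat v w : Circle)) := by
    rw [Circle.coe_mul, cq_mul, ← mul_assoc, ← hu.eq_mul_rat hp hv, ← hv.eq_mul_rat hp hw]
  conv_rhs => rw [h1]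
  rw [rat_mul_self hu.1]

theorem Over.rat_self {p u : ℍ} (hp : p * p = -1) (hu : Over p u) : rat u u = 1 := by
  have := hu.rat_trans hp hu hu
  simpa using this

theorem Over.rat_inv {p u v : ℍ} (hp : p * p = -1) (hu : Over p u) (hv : Over p v) :
    (rat u v)⁻¹ = rat v u := by
  have h1 := hu.rat_trans hp hv hu
  rw [hu.rat_self hp] at h1
  exact inv_eq_of_mul_eq_one_right h1

theorem Over.continuousAt_rat {p u v : ℍ} (hp : p * p = -1) (hu : Over p u) (hv : Over p v) :
    ContinuousAt (fun z : ℍ × ℍ => rat z.1 z.2) (u, v) := by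
  have h1 : ContinuousAt nc ((fun z : ℍ × ℍ => rc z.1 z.2) (u, v)) := by
    apply continuousAt_nc
    simp only
    rw [← norm_ne_zero_iff, hu.norm_rc hp hv]
    norm_num
  exact ContinuousAt.comp (f := fun z : ℍ × ℍ => rc z.1 z.2) h1 continuous_rc.continuousAt

theorem continuousAt_rat_comp {X : Type*} [TopologicalSpace X] {p : ℍ} {u v : X → ℍ} {x : X}
    (hp : p * p = -1) (hu : ContinuousAt u x) (hv : ContinuousAt v x) (hou : Over p (u x))
    (hov : Over p (v x)) : ContinuousAt (fun z => rat (u z) (v z)) x := by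
  have h1 := hou.continuousAt_rat hp hov
  exact ContinuousAt.comp (f := fun z => (u z, v z)) h1 (hu.prodMk hv)

theorem continuousOn_rat {X : Type*} [TopologicalSpace X] {s : Set X} {p u v : X → ℍ}
    (hp : ∀ x ∈ s, p x * p x = -1) (hu : ContinuousOn u s) (hv : ContinuousOn v s)
    (hou : ∀ x ∈ s, Over (p x) (u x)) (hov : ∀ x ∈ s, Over (p x) (v x)) :
    ContinuousOn (fun x => rat (u x) (v x)) s := by
  intro x hx
  have h1 := (hou x hx).continuousAt_rat (hp x hx) (hov x hx)
  exact ContinuousAt.comp_continuousWithinAt (f := fun x => (u x, v x)) h1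
    ((hu x hx).prodMk (hv x hx))

end Pool.Agent.MP74810d
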