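import Mathlib
import Pool.Agent.Lib.MP_74810d_gt.Flow
import Pool.Agent.Lib.MP_74810d_gt.Ratio
import Pool.Agent.Lib.MP_74810d_gt.Logs

/-!
Gauge fixing of a Hopf lift near infinity, and the degree lemma.
-/

open Metric Set Topology Filter Quaternion
open scoped Quaternion

namespace Pool.Agent.MP74810d

variable {E : Type*} [NormedAddCommGroup E] [InnerProductSpace ℝ E] [FiniteDimensional ℝ E]
variable {Q : Type*} [MetricSpace Q]

theorem exists_gauge (hE : 2 < Module.finrank ℝ E) [CompactSpace Q] {Φ : ℝ → E → E} {q : E → Q}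
    (h : FlowOrb Φ q) {A : Set Q} (hA : IsClosed A) (hAc : ∀ y, y ∉ A → IsCompact (q ⁻¹' {y}))
    {σ : Q → E} (hσ : ContinuousOn σ A) (hσq : ∀ y ∈ A, q (σ y) = y) {p : Q → ℍ}
    (hpc : Continuous p) (hp : ∀ y, p y * p y = -1) {F : E → ℍ} (hF : Continuous F)
    (hFo : ∀ x, Over (p (q x)) (F x)) :
    ∃ G : E → ℍ, Continuous G ∧ (∀ x, Over (p (q x)) (G x)) ∧
      ∀ y₀, ∃ W : Set Q, IsOpen W ∧ y₀ ∈ W ∧ ∃ s : Q → ℍ, ContinuousOn s W ∧
        (∀ y ∈ W, Over (p y) (s y)) ∧
        ∃ B : Set E, IsCompact B ∧ ∀ x, q x ∈ W → x ∉ B → G x = s (q x) := by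
  have : TietzeExtension ℍ := TietzeExtension.of_tvs ℝ
  -- extend the section over `A`
  obtain ⟨v, hv⟩ := ContinuousMap.exists_restrict_eq hA
    (⟨A.domRestrict fun y => F (σ y), continuousOn_iff_continuous_domRestrict.1
      (hF.comp_continuousOn hσ)⟩ : C(A, ℍ))
  have hv' : ∀ y ∈ A, v y = F (σ y) := by
    intro y hy
    have := congrArg (fun F : C(A, ℍ) => F ⟨y, hy⟩) hv
    simpa using this
  set N : Set Q := {y | tr (p y) (v y) ≠ 0} with hN
  have hNo : IsOpen N := by
    have h1 : Continuous fun y => tr (p y) (v y) := continuous_tr.comp (hpc.prodMk v.continuous)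
    exact isOpen_ne_fun h1 continuous_const
  have hAN : A ⊆ N := by
    intro y hy
    have h1 : Over (p y) (F (σ y)) := by
      have := hFo (σ y)
      rwa [hσq y hy] at this
    change tr (p y) (v y) ≠ 0
    rw [hv' y hy, tr_of_over h1]
    exact smul_ne_zero two_ne_zero h1.ne_zero
  set s : Q → ℍ := fun y => nu (p y) (v y) with hs
  have hsc : ContinuousOn s N := ContinuousOn.nu' hpc.continuousOn v.continuous.continuousOn
    (fun y hy => hy)
  have hso : ∀ y ∈ N, Over (p y) (s y) := fun y hy => over_nu (hp y) hy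
  have hcpt : IsCompact (q ⁻¹' Nᶜ) := h.isCompact_preimage hNo.isClosed_compl.isCompact
    (fun y hy => hAc y (fun hyA => hy (hAN hyA)))
  obtain ⟨R, hR0, hR⟩ : ∃ R : ℝ, 0 ≤ R ∧ ∀ x, R < ‖x‖ → q x ∈ N := by
    obtain ⟨R, hR⟩ := hcpt.isBounded.subset_closedBall 0
    refine ⟨max R 0, le_max_right _ _, ?_⟩
    intro x hx
    by_contra hcon
    have := hR (show x ∈ q ⁻¹' Nᶜ from hcon)
    rw [mem_closedBall, dist_zero_right] at this
    have := le_max_left R 0
    linarith
  obtain ⟨χ, hχ, hχr⟩ := exists_log_outside hE hR0 (show R < R + 1 by linarith)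
    (fun x => rat (s (q x)) (F x)) (by
      refine continuousOn_rat (p := fun x => p (q x)) (fun x _ => hp _) ?_ hF.continuousOn
        (fun x hx => hso _ (hR x hx)) (fun x _ => hFo x)
      exact hsc.comp h.qcont.continuousOn (fun x hx => hR x hx))
  refine ⟨fun x => F x * cq (Circle.exp (-χ x)), ?_, fun x => (hFo x).mul_cq _, ?_⟩
  · refine hF.mul (continuous_cq.comp ?_)
    exact continuous_subtype_val.comp (Circle.exp.continuous.comp hχ.neg)
  intro y₀
  by_cases hy₀ : y₀ ∈ N
  · refine ⟨N, hNo, hy₀, s, hsc, hso, closedBall 0 (R + 1), isCompact_closedBall _ _, ?_⟩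
    intro x hx hxB
    rw [mem_closedBall, dist_zero_right, not_le] at hxB
    have h1 := hχr x hxB.le
    have h2 := (hso _ hx).eq_mul_rat (hp _) (hFo x)
    generalize rat (s (q x)) (F x) = ζ at h1 h2
    simp only
    rw [Circle.exp_neg, h1, h2, mul_assoc, ← cq_mul, ← Circle.coe_mul, mul_inv_cancel, Circle.coe_one, cq_one, mul_one]
  · have hyA : y₀ ∉ A := fun hh => hy₀ (hAN hh)
    obtain ⟨K, hK, -, W, hW, hyW, hWK⟩ := h.exists_nhds_preimage_subset (hAc y₀ hyA) isOpen_univ
      (subset_univ _)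
    obtain ⟨x₀, rfl⟩ := h.qsurj y₀
    have hW2 : IsOpen {y | ‖p y - p (q x₀)‖ < 2} :=
      isOpen_lt (by fun_prop) continuous_const
    refine ⟨W ∩ {y | ‖p y - p (q x₀)‖ < 2}, hW.inter hW2, ⟨hyW, by simp⟩,
      fun y => nu (p y) (F x₀), ?_, ?_, K, hK, ?_⟩
    · exact ContinuousOn.nu' hpc.continuousOn continuousOn_const
        (fun y hy => tr_ne_zero (hFo x₀) hy.2)
    · intro y hy
      exact over_nu (hp y) (tr_ne_zero (hFo x₀) hy.2)
    · intro x hx hxK
      exact absurd (hWK hx.1) hxK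

/-- no circle valued function on the three-sphere is equivariant of nonzero degree along
a Hopf circle -/
theorem degree_zero {s : sphere (0 : ℍ) 1 → Circle} (hs : Continuous s) {a : ℤ}
    (u₀ : sphere (0 : ℍ) 1)
    (hsa : ∀ α : ℝ, ∀ u : sphere (0 : ℍ) 1, (u : ℍ) = u₀ * cq (Circle.exp α) →
      s u = s u₀ * Circle.exp α ^ a) : a = 0 := by
  have hfin : Module.finrank ℝ ℍ = 4 := Quaternion.finrank_eq_four
  have := sphere_simplyConnected (E := ℍ) (by rw [hfin]; norm_num)
  have := sphere_locallyPathConnected (E := ℍ) (by rw [hfin]; norm_num)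
  obtain ⟨g, hg, hgs⟩ := exists_log s hs
  have hmem : ∀ α : ℝ, (u₀ : ℍ) * cq (Circle.exp α) ∈ sphere (0 : ℍ) 1 := by
    intro α
    rw [mem_sphere_zero_iff_norm, norm_mul, norm_cq, Circle.norm_coe, mul_one]
    exact mem_sphere_zero_iff_norm.1 u₀.2
  set P : ℝ → sphere (0 : ℍ) 1 := fun α => ⟨u₀ * cq (Circle.exp α), hmem α⟩ with hP
  have hPc : Continuous P := by
    refine Continuous.subtype_mk ?_ _
    refine continuous_const.mul (continuous_cq.comp ?_)
    exact continuous_subtype_val.comp Circle.exp.continuous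
  have h1 : ∀ α β : ℝ, g (P α) - a * α = g (P β) - a * β := by
    have hc : Continuous fun α : ℝ => g (P α) - a * α := by
      have := hg.comp hPc
      simp only [Function.comp_def] at this
      fun_prop
    have he : ∀ α : ℝ, Circle.exp (g (P α) - a * α) = s u₀ := by
      intro α
      have e1 : Circle.exp (a * α) = Circle.exp α ^ a := by
        have h1 := map_zsmul Circle.expHom a α
        have h2 : Circle.expHom (a • α) = Additive.ofMul (Circle.exp (a * α)) := by
          rw [zsmul_eq_mul]; rfl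
        have h3 : a • Circle.expHom α = Additive.ofMul (Circle.exp α ^ a) := rfl
        rw [h2, h3] at h1
        exact Additive.ofMul.injective h1
      rw [Circle.exp_sub, hgs, hsa α (P α) rfl, e1, mul_div_assoc, div_self', mul_one]
    intro α β
    refine Circle.isCoveringMap_exp.const_of_comp hc ?_ α β
    intro α β
    rw [he, he]
  have h2 : P (2 * Real.pi) = P 0 := by
    apply Subtype.ext
    simp only [hP]
    rw [Circle.exp_two_pi, Circle.exp_zero]
  have h3 := h1 (2 * Real.pi) 0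
  rw [h2] at h3
  have h4 : (a : ℝ) * (2 * Real.pi) = 0 := by linarith
  have h5 : (2 * Real.pi) ≠ 0 := by positivity
  have h6 : (a : ℝ) = 0 := by
    rcases mul_eq_zero.1 h4 with h | h
    · exact h
    · exact absurd h h5
  exact_mod_cast h6

end Pool.Agent.MP74810d
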