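import Mathlib
import Pool.Agent.Lib.MP_74810d_gt.Orbit

/-!
Openness of the set of null fibres.
-/

open Metric Set Topology Filter

namespace Pool.Agent.MP74810d

variable {M Q : Type*} [MetricSpace M] [ProperSpace M] [TopologicalSpace Q] [T2Space Q]

theorem continuous_circle_coe : Continuous fun z : Circle => (z : ℂ) := continuous_subtype_val

/-- extension of a compactly supported function on a closed set -/
theorem exists_extend {C : Set M} (hC : IsClosed C) {l : M → ℝ} (hl : ContinuousOn l C)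
    {B : Set M} (hB : IsCompact B) (hlB : ∀ x ∈ C, x ∉ B → l x = 0) :
    ∃ g : M → ℝ, Continuous g ∧ (∀ x ∈ C, g x = l x) ∧
      ∃ B' : Set M, IsCompact B' ∧ ∀ x, x ∉ B' → g x = 0 := by
  rcases isEmpty_or_nonempty M with hM | ⟨⟨x₀⟩⟩
  · exact ⟨l, by
      rw [continuous_iff_continuousAt]
      intro x
      exact (hM.false x).elim, fun x _ => rfl, ∅, isCompact_empty, fun x => (hM.false x).elim⟩
  obtain ⟨R, hR⟩ := hB.isBounded.subset_closedBall x₀
  obtain ⟨G, hG⟩ := ContinuousMap.exists_restrict_eq hC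
    (⟨C.domRestrict l, continuousOn_iff_continuous_domRestrict.1 hl⟩ : C(C, ℝ))
  have hG' : ∀ x ∈ C, G x = l x := by
    intro x hx
    have := congrArg (fun F : C(C, ℝ) => F ⟨x, hx⟩) hG
    simpa using this
  refine ⟨fun z => max 0 (min 1 (R + 1 - dist z x₀)) * G z, by fun_prop, ?_,
    closedBall x₀ (R + 1), isCompact_closedBall _ _, ?_⟩
  · intro x hx
    simp only
    by_cases hxB : x ∈ B
    · have h1 : dist x x₀ ≤ R := hR hxB
      rw [min_eq_left (by linarith), max_eq_right (by norm_num), one_mul, hG' x hx]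
    · rw [hG' x hx, hlB x hx hxB, mul_zero]
  · intro x hx
    rw [mem_closedBall, not_le] at hx
    simp only
    rw [max_eq_left, zero_mul]
    exact (min_le_right _ _).trans (by linarith)

namespace FlowOrb

variable {Φ : ℝ → M → M} {q : M → Q} (h : FlowOrb Φ q)
include h

/-- Lemma K : a circle valued function, trivial off a compact set and null over `y₀`, is null
uniformly near `y₀`. -/
theorem lemmaK [LocallyCompactSpace Q] {W : Set Q} (hW : IsOpen W) {y₀ : Q} (hy₀ : y₀ ∈ W)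
    {f : M → Circle} (hf : ContinuousOn f (q ⁻¹' W)) {B : Set M} (hB : IsCompact B)
    (hfB : ∀ x, q x ∈ W → x ∉ B → f x = 1) (hnull : NullF q f y₀) :
    ∃ W' : Set Q, IsOpen W' ∧ y₀ ∈ W' ∧ W' ⊆ W ∧ ∃ l : M → ℝ, ContinuousOn l (q ⁻¹' W') ∧
      (∃ B' : Set M, IsCompact B' ∧ ∀ x, q x ∈ W' → x ∉ B' → l x = 0) ∧
      ∃ κ : Circle, ∀ x, q x ∈ W' → f x = κ * Circle.exp (l x) := by
  obtain ⟨l₀, hl₀, ⟨B₀, hB₀, hlB₀⟩, κ, hκ⟩ := hnull
  obtain ⟨g, hg, hgl, B₁, hB₁, hgB₁⟩ := exists_extend (h.isClosed_fiber y₀) hl₀ hB₀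
    (fun x hx => hlB₀ x hx)
  -- the quotient function
  set H : M → Circle := fun x => κ⁻¹ * f x * Circle.exp (-g x) with hH
  have hHy₀ : ∀ x, q x = y₀ → H x = 1 := by
    intro x hx
    rw [hH]
    simp only
    rw [hκ x hx, hgl x hx, inv_mul_cancel_left, ← Circle.exp_add, add_neg_cancel, Circle.exp_zero]
  have hHc : ContinuousOn H (q ⁻¹' W) := by
    have h1 : Continuous fun x => Circle.exp (-g x) := Circle.exp.continuous.comp hg.neg
    exact (continuousOn_const.mul hf).mul h1.continuousOn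
  obtain ⟨W₁, hW₁, hyW₁, hWW₁, B₃, hB₃, hHB₃⟩ : ∃ W₁ : Set Q, IsOpen W₁ ∧ y₀ ∈ W₁ ∧ W₁ ⊆ W ∧
      ∃ B₃ : Set M, IsCompact B₃ ∧ ∀ x, q x ∈ W₁ → x ∉ B₃ → H x = 1 := by
    by_cases hcpt : IsCompact (q ⁻¹' {y₀})
    · obtain ⟨K, hK, -, W₂, hW₂, hyW₂, hWK⟩ := h.exists_nhds_preimage_subset hcpt isOpen_univ
        (subset_univ _)
      refine ⟨W₂ ∩ W, hW₂.inter hW, ⟨hyW₂, hy₀⟩, inter_subset_right, K, hK, ?_⟩
      intro x hx hxK
      exact absurd (hWK hx.1) hxK
    · refine ⟨W, hW, hy₀, Subset.rfl, B ∪ B₁, hB.union hB₁, ?_⟩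
      obtain ⟨z, hz, hzB⟩ : ∃ z, q z = y₀ ∧ z ∉ B ∪ B₁ := by
        by_contra hcon
        push Not at hcon
        exact hcpt ((hB.union hB₁).of_isClosed_subset (h.isClosed_fiber y₀)
          (fun z hz => hcon z hz))
      have hκ1 : κ = 1 := by
        have h1 := hHy₀ z hz
        rw [hH] at h1
        simp only at h1
        rw [hfB z (by rw [hz]; exact hy₀) (fun hh => hzB (Or.inl hh)),
          hgB₁ z (fun hh => hzB (Or.inr hh))] at h1
        simpa using h1
      intro x hx hxB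
      rw [hH]
      simp only
      rw [hfB x hx (fun hh => hxB (Or.inl hh)), hgB₁ x (fun hh => hxB (Or.inr hh)), hκ1]
      simp
  obtain ⟨L, hL, hyL, hLW⟩ := exists_compact_subset hW₁ hyW₁
  have hZ : IsClosed ((B₃ ∩ q ⁻¹' L) ∩ (fun x => ((H x : Circle) : ℂ).re) ⁻¹' Iic 0) := by
    refine ContinuousOn.preimage_isClosed_of_isClosed ?_ (hB₃.isClosed.inter
      (hL.isClosed.preimage h.qcont)) isClosed_Iic
    refine Complex.continuous_re.comp_continuousOn (continuous_circle_coe.comp_continuousOn ?_)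
    exact hHc.mono (fun x hx => hWW₁ (hLW hx.2))
  set Z := (B₃ ∩ q ⁻¹' L) ∩ (fun x => ((H x : Circle) : ℂ).re) ⁻¹' Iic 0 with hZdef
  have hZc : IsCompact Z := hB₃.of_isClosed_subset hZ (fun x hx => hx.1.1)
  have hpos : ∀ x, q x ∈ interior L ∩ (q '' Z)ᶜ → 0 < ((H x : Circle) : ℂ).re := by
    rintro x ⟨hx1, hx2⟩
    have hx1' : q x ∈ L := interior_subset hx1
    by_cases hxB : x ∈ B₃
    · by_contra hcon
      push Not at hcon
      exact hx2 ⟨x, ⟨⟨hxB, hx1'⟩, hcon⟩, rfl⟩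
    · rw [hHB₃ x (hLW (interior_subset hx1)) hxB]
      simp
  refine ⟨interior L ∩ (q '' Z)ᶜ, isOpen_interior.inter
    (hZc.image h.qcont).isClosed.isOpen_compl, ⟨hyL, ?_⟩,
    fun y hy => hWW₁ (hLW (interior_subset hy.1)),
    fun x => g x + Complex.arg (H x), ?_, ⟨B₁ ∪ B₃, hB₁.union hB₃, ?_⟩, κ, ?_⟩
  · rintro ⟨z, hz, hzy⟩
    have h1 := hz.2
    simp only [mem_preimage, mem_Iic] at h1
    rw [hHy₀ z hzy] at h1
    simp at h1
    linarith
  · refine hg.continuousOn.add ?_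
    intro x hx
    have h1 : ContinuousAt Complex.arg (H x : ℂ) :=
      Complex.continuousAt_arg (Or.inl (hpos x hx))
    have h2 : ContinuousOn (fun x => ((H x : Circle) : ℂ)) (q ⁻¹' (interior L ∩ (q '' Z)ᶜ)) :=
      continuous_circle_coe.comp_continuousOn
        (hHc.mono (fun x hx => hWW₁ (hLW (interior_subset hx.1))))
    exact ContinuousAt.comp_continuousWithinAt (f := fun x => ((H x : Circle) : ℂ)) h1 (h2 x hx)
  · intro x hx hxB
    simp only
    rw [hgB₁ x (fun hh => hxB (Or.inl hh)), hHB₃ x (hLW (interior_subset hx.1))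
      (fun hh => hxB (Or.inr hh))]
    simp
  · intro x hx
    rw [Circle.exp_add, Circle.exp_arg, hH]
    simp only
    rw [mul_comm (κ⁻¹) (f x), mul_comm (Circle.exp (g x)), mul_assoc, ← Circle.exp_add,
      neg_add_cancel, Circle.exp_zero, mul_one, mul_comm (f x), mul_inv_cancel_left]

end FlowOrb

end Pool.Agent.MP74810d
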