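import Mathlib
import Pool.Agent.Lib.MP_74810d_gt.LemmaK
import Pool.Agent.Lib.MP_74810d_gt.Bump

/-!
Closedness of the set of null fibres and globalisation.
-/

open Metric Set Topology Filter

namespace Pool.Agent.MP74810d

theorem exp_int_mul (m : ℤ) (x : ℝ) : Circle.exp (m * x) = Circle.exp x ^ m := by
  have h1 := map_zsmul Circle.expHom m x
  have h2 : Circle.expHom (m • x) = Additive.ofMul (Circle.exp (m * x)) := by
    rw [zsmul_eq_mul]; rfl
  have h3 : m • Circle.expHom x = Additive.ofMul (Circle.exp x ^ m) := rfl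
  rw [h2, h3] at h1
  exact Additive.ofMul.injective h1

variable {M Q : Type*} [MetricSpace M] [ProperSpace M] [TopologicalSpace Q] [T2Space Q]

/-- local triviality of a circle valued cocycle -/
def LocTriv (Φ : ℝ → M → M) (q : M → Q) (c : ℝ → M → Circle) : Prop :=
  ∀ y₀ : Q, ∃ W : Set Q, IsOpen W ∧ y₀ ∈ W ∧ ∃ f : M → Circle, ContinuousOn f (q ⁻¹' W) ∧
    (∃ B : Set M, IsCompact B ∧ ∀ x, q x ∈ W → x ∉ B → f x = 1) ∧
    ∀ x, q x ∈ W → ∀ t, c t x = f (Φ t x) / f x

/-- nullity of a cocycle over a point -/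
def NullC (Φ : ℝ → M → M) (q : M → Q) (c : ℝ → M → Circle) (y : Q) : Prop :=
  ∃ l : M → ℝ, ContinuousOn l (q ⁻¹' {y}) ∧
    (∃ B : Set M, IsCompact B ∧ ∀ x, q x = y → x ∉ B → l x = 0) ∧
    ∀ x, q x = y → ∀ t, c t x = Circle.exp (l (Φ t x) - l x)

namespace FlowOrb

variable {Φ : ℝ → M → M} {q : M → Q} (h : FlowOrb Φ q)
include h

theorem lemmaK' [LocallyCompactSpace Q] {W : Set Q} (hW : IsOpen W) {y₀ : Q} (hy₀ : y₀ ∈ W)
    {f : M → Circle} (hf : ContinuousOn f (q ⁻¹' W)) {B : Set M} (hB : IsCompact B)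
    (hfB : ∀ x, q x ∈ W → x ∉ B → f x = 1)
    (hcl : y₀ ∈ closure {y | y ∈ W ∧ NullF q f y}) : NullF q f y₀ := by
  obtain ⟨x₀, rfl⟩ := h.qsurj y₀
  by_cases hfix : ∀ τ, Φ τ x₀ = x₀
  · refine h.nullF_of_periodic x₀ one_pos (hfix 1) (θ := fun _ => Complex.arg (f x₀))
      continuous_const ?_ rfl
    intro t
    rw [hfix, Circle.exp_arg]
  push Not at hfix
  obtain ⟨τ, hτ⟩ := hfix
  obtain ⟨Wb, hWb, hyWb, b, hb, ⟨Bb, hBb, hbB⟩, hmono⟩ := h.exists_bump hτ
  have hfc : ∀ x, q x ∈ W → Continuous fun t => f (Φ t x) := by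
    intro x hx
    refine hf.comp_continuous (h.cont_t x) ?_
    intro t
    rw [mem_preimage, h.q_flow]
    exact hx
  obtain ⟨θ, hθ, hθf⟩ := exists_log_real _ (hfc x₀ hy₀)
  obtain ⟨β₀, hβ₀, -, hβ₀b, -⟩ := hmono x₀ hyWb
  obtain ⟨a₁, a₂, hwd⟩ := h.winding_data x₀ (hB.union hBb)
  obtain ⟨⟨D, hD⟩, hDnull⟩ := hwd f θ (fun z hz hzB => hfB z (by rw [hz]; exact hy₀)
    (fun hh => hzB (Or.inl hh))) hθ hθf
  obtain ⟨⟨k, hk⟩, -⟩ := hwd b β₀ (fun z hz hzB => hbB z (by rw [hz]; exact hyWb)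
    (fun hh => hzB (Or.inr hh))) hβ₀ hβ₀b
  set F : M → Circle := fun z => f z ^ k * b z ^ (-D) with hF
  have hFnull : NullF q F (q x₀) := by
    refine (hwd F (fun t => k * θ t + ((-D : ℤ) : ℝ) * β₀ t) ?_ (by fun_prop) ?_).2 ?_
    · intro z hz hzB
      simp only [hF]
      rw [hfB z (by rw [hz]; exact hy₀) (fun hh => hzB (Or.inl hh)),
        hbB z (by rw [hz]; exact hyWb) (fun hh => hzB (Or.inr hh))]
      simp
    · intro t
      rw [Circle.exp_add, exp_int_mul, exp_int_mul, hθf, hβ₀b]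
    · push_cast
      have e1 : θ a₂ = θ a₁ + D * (2 * Real.pi) := by linarith
      have e2 : β₀ a₂ = β₀ a₁ + k * (2 * Real.pi) := by linarith
      rw [e1, e2]
      ring
  have hFc : ContinuousOn F (q ⁻¹' (W ∩ Wb)) := by
    have h1 : ContinuousOn f (q ⁻¹' (W ∩ Wb)) := hf.mono (fun x hx => hx.1)
    have h2 : ContinuousOn b (q ⁻¹' (W ∩ Wb)) := hb.mono (fun x hx => hx.2)
    exact (h1.zpow k).mul (h2.zpow (-D))
  obtain ⟨W', hW', hyW', hWW', l, hl, ⟨B', hB', hlB'⟩, κ, hκ⟩ := h.lemmaK (hW.inter hWb)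
    ⟨hy₀, hyWb⟩ hFc (hB.union hBb) (by
      intro x hx hxB
      simp only [hF]
      rw [hfB x hx.1 (fun hh => hxB (Or.inl hh)), hbB x hx.2 (fun hh => hxB (Or.inr hh))]
      simp) hFnull
  obtain ⟨y, hyW'2, hyW, lf, hlf, ⟨Bf, hBf, hlBf⟩, κf, hκf⟩ := _root_.mem_closure_iff.1 hcl W' hW' hyW'
  obtain ⟨x, rfl⟩ := h.qsurj y
  obtain ⟨β, hβ, hβm, hβb, s₁, t₁, hst⟩ := hmono x (hWW' hyW'2).2
  -- the real identity along the orbit of `x`
  set G : M → ℝ := fun z => k * lf z - l z with hG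
  have hGc : Continuous fun t => G (Φ t x) := by
    have h1 : Continuous fun t => lf (Φ t x) := hlf.comp_continuous (h.cont_t x)
      (fun t => h.q_flow t x)
    have h2 : Continuous fun t => l (Φ t x) := hl.comp_continuous (h.cont_t x)
      (fun t => by rw [mem_preimage, h.q_flow]; exact hyW'2)
    exact (continuous_const.mul h1).sub h2
  have hGexp : ∀ t, Circle.exp (D * β t - G (Φ t x)) = κf ^ k * κ⁻¹ := by
    intro t
    have hqt : q (Φ t x) = q x := h.q_flow t x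
    have e1 : f (Φ t x) ^ k * b (Φ t x) ^ (-D) = κ * Circle.exp (l (Φ t x)) :=
      hκ _ (by rw [hqt]; exact hyW'2)
    have e2 : f (Φ t x) = κf * Circle.exp (lf (Φ t x)) := hκf _ hqt
    have e3 : b (Φ t x) ^ D = f (Φ t x) ^ k * (κ * Circle.exp (l (Φ t x)))⁻¹ := by
      rw [← e1, zpow_neg, mul_inv, inv_inv, ← mul_assoc, mul_inv_cancel, one_mul]
    simp only [hG]
    rw [Circle.exp_sub, exp_int_mul, hβb, e3, Circle.exp_sub, exp_int_mul, e2, mul_zpow]
    rw [div_eq_mul_inv, div_eq_mul_inv, mul_inv, mul_inv, inv_inv]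
    have hA : Circle.exp (lf (Φ t x)) ^ k * (Circle.exp (lf (Φ t x)) ^ k)⁻¹ = 1 := mul_inv_cancel _
    have hB2 : (Circle.exp (l (Φ t x)))⁻¹ * Circle.exp (l (Φ t x)) = 1 := inv_mul_cancel _
    calc κf ^ k * Circle.exp (lf (Φ t x)) ^ k * (κ⁻¹ * (Circle.exp (l (Φ t x)))⁻¹) *
          ((Circle.exp (lf (Φ t x)) ^ k)⁻¹ * Circle.exp (l (Φ t x)))
        = κf ^ k * κ⁻¹ * (Circle.exp (lf (Φ t x)) ^ k * (Circle.exp (lf (Φ t x)) ^ k)⁻¹) *
          ((Circle.exp (l (Φ t x)))⁻¹ * Circle.exp (l (Φ t x))) := by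
          simp only [mul_assoc, mul_comm, mul_left_comm]
      _ = κf ^ k * κ⁻¹ := by rw [hA, hB2, mul_one, mul_one]
  have hconst : ∀ s t, D * β s - G (Φ s x) = D * β t - G (Φ t x) := by
    refine const_of_exp ((continuous_const.mul hβ).sub hGc) ?_
    intro s t
    rw [hGexp, hGexp]
  have hGB : ∀ z, q z = q x → z ∉ B' ∪ Bf → G z = 0 := by
    intro z hz hzB
    simp only [hG]
    rw [hlB' z (by rw [hz]; exact hyW'2) (fun hh => hzB (Or.inl hh)),
      hlBf z hz (fun hh => hzB (Or.inr hh))]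
    simp
  have hD0 : D = 0 := by
    by_contra hne
    apply hst
    have hDr : (D : ℝ) ≠ 0 := by exact_mod_cast hne
    have hGG : G (Φ s₁ x) = G (Φ t₁ x) := by
      rcases lt_or_gt_of_ne hDr with hneg | hpos
      · have hm : Monotone fun t => (fun z => - G z) (Φ t x) := by
          intro s t hst'
          have h1 := hβm hst'
          have h2 := hconst s t
          simp only
          nlinarith
        have := h.const_of_monotone x (G := fun z => - G z) (hB'.union hBf)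
          (fun z hz hzB => by rw [hGB z hz hzB, neg_zero]) hm s₁ t₁
        linarith
      · have hm : Monotone fun t => G (Φ t x) := by
          intro s t hst'
          have h1 := hβm hst'
          have h2 := hconst s t
          simp only
          nlinarith
        exact h.const_of_monotone x (hB'.union hBf) hGB hm s₁ t₁
    have h2 := hconst s₁ t₁
    rw [hGG] at h2
    have h3 : (D : ℝ) * β s₁ = D * β t₁ := by linarith
    exact mul_left_cancel₀ hDr h3
  apply hDnull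
  rw [hD0] at hD
  push_cast at hD
  linarith

omit [ProperSpace M] [T2Space Q] in
theorem nullC_iff {c : ℝ → M → Circle} {W : Set Q} {f : M → Circle}
    (hcf : ∀ x, q x ∈ W → ∀ t, c t x = f (Φ t x) / f x) {y : Q} (hy : y ∈ W) :
    NullC Φ q c y ↔ NullF q f y := by
  constructor
  · rintro ⟨l, hl, hB, hlc⟩
    obtain ⟨x, rfl⟩ := h.qsurj y
    refine ⟨l, hl, hB, f x * Circle.exp (- l x), ?_⟩
    intro z hz
    obtain ⟨t, rfl⟩ := (h.fib _ _).1 hz.symm
    have h1 := hlc x rfl t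
    rw [hcf x hy t, div_eq_iff_eq_mul] at h1
    rw [h1, mul_comm, mul_assoc, ← Circle.exp_add]
    congr 2
    ring
  · rintro ⟨l, hl, hB, κ, hκ⟩
    refine ⟨l, hl, hB, ?_⟩
    intro x hx t
    rw [hcf x (by rw [hx]; exact hy) t, hκ x hx, hκ (Φ t x) (by rw [h.q_flow]; exact hx),
      Circle.exp_sub, mul_div_mul_left_eq_div]

/-- Globalisation: a locally trivial cocycle which is null over one point is a coboundary of
a continuous real function. -/
theorem exists_global [CompactSpace Q] [PreconnectedSpace Q] {c : ℝ → M → Circle}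
    (hloc : LocTriv Φ q c) {y₁ : Q} (hy₁ : NullC Φ q c y₁) :
    ∃ R : M → ℝ, Continuous R ∧ ∀ x t, c t x = Circle.exp (R (Φ t x) - R x) := by
  -- local solutions near a null point
  have hlocal : ∀ y, NullC Φ q c y → ∃ W : Set Q, IsOpen W ∧ y ∈ W ∧ ∃ l : M → ℝ,
      ContinuousOn l (q ⁻¹' W) ∧
      (∃ B' : Set M, IsCompact B' ∧ ∀ x, q x ∈ W → x ∉ B' → l x = 0) ∧
      ∀ x, q x ∈ W → ∀ t, c t x = Circle.exp (l (Φ t x) - l x) := by
    intro y hy
    obtain ⟨W, hW, hyW, f, hf, ⟨B, hB, hfB⟩, hcf⟩ := hloc y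
    obtain ⟨W', hW', hyW', hWW', l, hl, hlB, κ, hκ⟩ := h.lemmaK hW hyW hf hB hfB
      ((h.nullC_iff hcf hyW).1 hy)
    refine ⟨W', hW', hyW', l, hl, hlB, ?_⟩
    intro x hx t
    rw [hcf x (hWW' hx) t, hκ x hx, hκ (Φ t x) (by rw [h.q_flow]; exact hx),
      Circle.exp_sub, mul_div_mul_left_eq_div]
  have hopen : IsOpen {y | NullC Φ q c y} := by
    rw [isOpen_iff_mem_nhds]
    intro y hy
    obtain ⟨W, hW, hyW, l, hl, ⟨B, hB, hlB⟩, hc⟩ := hlocal y hy
    filter_upwards [hW.mem_nhds hyW] with z hz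
    exact ⟨l, hl.mono (by rintro x rfl; exact hz), ⟨B, hB, fun x hx => hlB x (by rw [hx]; exact hz)⟩,
      fun x hx => hc x (by rw [hx]; exact hz)⟩
  have hclosed : IsClosed {y | NullC Φ q c y} := by
    rw [← closure_subset_iff_isClosed]
    intro y hy
    obtain ⟨W, hW, hyW, f, hf, ⟨B, hB, hfB⟩, hcf⟩ := hloc y
    refine (h.nullC_iff hcf hyW).2 (h.lemmaK' hW hyW hf hB hfB ?_)
    rw [_root_.mem_closure_iff] at hy ⊢
    intro o ho hyo
    obtain ⟨z, ⟨hz1, hz2⟩, hz3⟩ := hy (o ∩ W) (ho.inter hW) ⟨hyo, hyW⟩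
    exact ⟨z, hz1, hz2, (h.nullC_iff hcf hz2).1 hz3⟩
  have hall : ∀ y, NullC Φ q c y := by
    have : {y | NullC Φ q c y} = univ := IsClopen.eq_univ ⟨hclosed, hopen⟩ ⟨y₁, hy₁⟩
    intro y
    have h2 : y ∈ {y | NullC Φ q c y} := by rw [this]; trivial
    exact h2
  choose W hW hyW l hl _ hcl using fun y => hlocal y (hall y)
  obtain ⟨t, ht⟩ := isCompact_univ.elim_finite_subcover W hW
    (fun y _ => mem_iUnion.2 ⟨y, hyW y⟩)
  obtain ⟨ϖ, hϖ⟩ := PartitionOfUnity.exists_isSubordinate (isClosed_univ (X := Q))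
    (fun i : t => W i) (fun i => hW i) (by
      intro y hy
      obtain ⟨i, hi⟩ := mem_iUnion.1 (ht hy)
      obtain ⟨hi1, hi2⟩ := mem_iUnion.1 hi
      exact mem_iUnion.2 ⟨⟨i, hi1⟩, hi2⟩)
  have hsum : ∀ y, ∑ i, ϖ i y = 1 := by
    intro y
    have := ϖ.sum_eq_one (mem_univ y)
    rwa [finsum_eq_sum_of_fintype] at this
  refine ⟨fun x => ∑ i, ϖ i (q x) * l i x, ?_, ?_⟩
  · refine continuous_finsetSum _ (fun i _ => ?_)
    rw [continuous_iff_continuousAt]
    intro x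
    by_cases hx : q x ∈ W i
    · have h1 : ContinuousAt (l i) x := (hl i).continuousAt
        (((hW i).preimage h.qcont).mem_nhds hx)
      exact (((ϖ i).continuous.comp h.qcont).continuousAt).mul h1
    · have hx2 : q x ∉ tsupport (ϖ i) := fun hh => hx (hϖ i hh)
      have h1 : ∀ᶠ w in 𝓝 x, q w ∈ (tsupport (ϖ i))ᶜ :=
        h.qcont.continuousAt.eventually
          ((isClosed_tsupport _).isOpen_compl.mem_nhds hx2)
      have h2 : (fun x => ϖ i (q x) * l i x) =ᶠ[𝓝 x] fun _ => 0 := by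
        filter_upwards [h1] with w hw
        rw [image_eq_zero_of_notMem_tsupport hw, zero_mul]
      exact continuousAt_const.congr h2.symm
  · intro x s
    obtain ⟨i₀, hi₀⟩ := mem_iUnion.1 (ht (mem_univ (q x)))
    obtain ⟨-, hi₀⟩ := mem_iUnion.1 hi₀
    have hcont : ∀ i, q x ∈ W i → Continuous fun s => l i (Φ s x) - l i x := by
      intro i hi
      refine Continuous.sub ?_ continuous_const
      refine (hl i).comp_continuous (h.cont_t x) (fun s => ?_)
      rw [mem_preimage, h.q_flow]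
      exact hi
    have heq : ∀ i, q x ∈ W i → l i (Φ s x) - l i x = l i₀ (Φ s x) - l i₀ x := by
      intro i hi
      refine lift_unique (hcont i hi) (hcont i₀ hi₀) ?_ (a := 0) ?_ s
      · intro u
        rw [← hcl i x hi, ← hcl i₀ x hi₀]
      · rw [h.zero, sub_self, sub_self]
    have hfin : (∑ i, ϖ i (q (Φ s x)) * l i (Φ s x)) - ∑ i, ϖ i (q x) * l i x =
        l i₀ (Φ s x) - l i₀ x := by
      rw [h.q_flow, ← Finset.sum_sub_distrib]
      have : ∀ i ∈ Finset.univ, ϖ i (q x) * l i (Φ s x) - ϖ i (q x) * l i x =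
          ϖ i (q x) * (l i₀ (Φ s x) - l i₀ x) := by
        intro i _
        rw [← mul_sub]
        by_cases hi : q x ∈ W i
        · rw [heq i hi]
        · have : ϖ i (q x) = 0 := by
            by_contra hne
            exact hi (hϖ i (subset_tsupport _ hne))
          rw [this, zero_mul, zero_mul]
      rw [Finset.sum_congr rfl this, ← Finset.sum_mul, hsum, one_mul]
    simp only
    rw [hfin]
    exact hcl i₀ x hi₀ s

end FlowOrb

end Pool.Agent.MP74810d
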