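import Mathlib
import Pool.Agent.Lib.MP_74810d_gt.Hopf

/-!
Lifting of maps from a proper real normed space to the two-sphere through the Hopf fibration.
-/

open Metric Set Topology Quaternion
open scoped Quaternion

namespace Pool.Agent.MP74810d

variable {E : Type*} [NormedAddCommGroup E] [NormedSpace ℝ E] [ProperSpace E]

theorem lift_along (p : E → ℍ) (hp : Continuous p) (hpp : ∀ x, p x * p x = -1) (R : ℝ)
    (c : ℝ → E → E) (hc : ∀ s, Continuous (c s))
    (hlip : ∀ s ∈ Icc (0 : ℝ) 1, ∀ s' ∈ Icc (0 : ℝ) 1, ∀ x, ‖c s x - c s' x‖ ≤ |s - s'|)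
    (hb : ∀ s ∈ Icc (0 : ℝ) 1, ∀ x, ‖c s x‖ ≤ R)
    (F : E → ℍ) (hF : Continuous F) (hFo : ∀ x, Over (p (c 0 x)) (F x)) :
    ∃ G : E → ℍ, Continuous G ∧ (∀ x, Over (p (c 1 x)) (G x)) ∧
      ∀ x, (∀ s, c s x = c 0 x) → G x = F x := by
  have hu : UniformContinuousOn p (closedBall 0 R) :=
    (isCompact_closedBall _ _).uniformContinuousOn_of_continuous hp.continuousOn
  rw [Metric.uniformContinuousOn_iff] at hu
  obtain ⟨δ, hδ, hδu⟩ := hu 2 (by norm_num)
  obtain ⟨N, hN⟩ := exists_nat_gt (1 / δ)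
  have hN0 : 0 < N := by
    have : (0 : ℝ) < N := lt_trans (by positivity) hN
    exact_mod_cast this
  have hNr : (0 : ℝ) < N := by exact_mod_cast hN0
  have hKN : ∀ k : ℕ, k < N → ∀ x,
      ‖p (c ((k + 1 : ℕ) / N) x) - p (c (k / N) x)‖ < 2 := by
    intro k hk x
    have h1 : ((k + 1 : ℕ) : ℝ) / N ∈ Icc (0 : ℝ) 1 := by
      refine ⟨by positivity, ?_⟩
      rw [div_le_one hNr]
      exact_mod_cast hk
    have h2 : (k : ℝ) / N ∈ Icc (0 : ℝ) 1 := by
      refine ⟨by positivity, ?_⟩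
      rw [div_le_one hNr]
      exact_mod_cast hk.le
    have h3 := hδu _ (mem_closedBall_zero_iff.2 (hb _ h1 x)) _
      (mem_closedBall_zero_iff.2 (hb _ h2 x)) ?_
    · rwa [dist_eq_norm] at h3
    · rw [dist_eq_norm]
      refine lt_of_le_of_lt (hlip _ h1 _ h2 x) ?_
      have : ((k + 1 : ℕ) : ℝ) / N - (k : ℝ) / N = 1 / N := by
        push_cast; ring
      rw [this, abs_of_pos (by positivity)]
      rw [div_lt_iff₀ hNr]
      rw [div_lt_iff₀ hδ] at hN
      linarith
  obtain ⟨G, hG, hGo, hGF⟩ := homotopy_lift (fun s x => p (c s x)) (fun s => hp.comp (hc s))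
    (fun s x => hpp _) N hN0 hKN F hF hFo
  exact ⟨G, hG, hGo, fun x hx => hGF x (fun s => by simp only [hx s])⟩

/-- radial retraction onto the closed ball of radius `r` -/
noncomputable def rad (r : ℝ) (x : E) : E := (r / max r ‖x‖) • x

omit [ProperSpace E] in
theorem continuous_rad {r : ℝ} (hr : 0 < r) : Continuous (rad r : E → E) := by
  unfold rad
  refine Continuous.smul ?_ continuous_id
  refine continuous_const.div (by fun_prop) ?_
  intro x
  exact (lt_of_lt_of_le hr (le_max_left _ _)).ne'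

omit [ProperSpace E] in
theorem rad_of_le {r : ℝ} (hr : 0 < r) {x : E} (hx : ‖x‖ ≤ r) : rad r x = x := by
  unfold rad
  rw [max_eq_left hx, div_self hr.ne', one_smul]

theorem coef_mul {r t : ℝ} (hr : 0 < r) : r / max r t * t = min r t := by
  rcases le_total r t with h | h
  · rw [max_eq_right h, min_eq_left h, div_mul_cancel₀]
    linarith
  · rw [max_eq_left h, min_eq_right h, div_self hr.ne', one_mul]

omit [ProperSpace E] in
theorem norm_rad {r : ℝ} (hr : 0 < r) (x : E) : ‖rad r x‖ = min r ‖x‖ := by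
  unfold rad
  rw [norm_smul, Real.norm_of_nonneg (div_nonneg hr.le (hr.le.trans (le_max_left _ _))),
    coef_mul hr]

omit [ProperSpace E] in
theorem norm_rad_sub {r r' : ℝ} (hr : 0 < r) (hr' : 0 < r') (x : E) :
    ‖rad r x - rad r' x‖ ≤ |r - r'| := by
  unfold rad
  rw [← sub_smul, norm_smul]
  have h : ‖r / max r ‖x‖ - r' / max r' ‖x‖‖ * ‖x‖ = |min r ‖x‖ - min r' ‖x‖| := by
    rw [← coef_mul hr, ← coef_mul hr', ← sub_mul, abs_mul, abs_norm, Real.norm_eq_abs]
  rw [h]
  refine (abs_min_sub_min_le_max _ _ _ _).trans ?_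
  simp

/-- Every continuous map from a proper real normed space to the two-sphere lifts through the
Hopf fibration. -/
theorem exists_hopf_lift (p : E → ℍ) (hp : Continuous p) (hpp : ∀ x, p x * p x = -1) :
    ∃ F : E → ℍ, Continuous F ∧ ∀ x, Over (p x) (F x) := by
  classical
  -- starting lift over the unit ball
  have start : ∃ F : E → ℍ, Continuous F ∧ ∀ x, Over (p (rad 1 x)) (F x) := by
    obtain ⟨u, hu⟩ := exists_over (hpp 0)
    have g1 : ∀ s ∈ Icc (0 : ℝ) 1, ∀ s' ∈ Icc (0 : ℝ) 1, ∀ x : E,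
        ‖s • rad 1 x - s' • rad 1 x‖ ≤ |s - s'| := by
      intro s _ s' _ x
      rw [← sub_smul, norm_smul, Real.norm_eq_abs]
      have : ‖rad 1 x‖ ≤ 1 := by rw [norm_rad one_pos]; exact min_le_left _ _
      exact mul_le_of_le_one_right (abs_nonneg _) this
    have g2 : ∀ s ∈ Icc (0 : ℝ) 1, ∀ x : E, ‖s • rad 1 x‖ ≤ 1 := by
      intro s hs x
      rw [norm_smul, Real.norm_of_nonneg hs.1]
      have h1 : ‖rad 1 x‖ ≤ 1 := by rw [norm_rad one_pos]; exact min_le_left _ _
      have h2 := hs.2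
      have h3 := norm_nonneg (rad 1 x)
      have h4 := hs.1
      nlinarith
    obtain ⟨G, hG, hGo, -⟩ := lift_along p hp hpp 1 (fun s x => s • rad 1 x)
      (fun s => (continuous_rad one_pos).const_smul s) g1 g2 (fun _ => u) continuous_const
      (by intro x; simpa using hu)
    exact ⟨G, hG, by simpa using hGo⟩
  have step : ∀ n : ℕ, ∀ F : {F : E → ℍ // Continuous F ∧ ∀ x, Over (p (rad (n + 1) x)) (F x)},
      ∃ G : {F : E → ℍ // Continuous F ∧ ∀ x, Over (p (rad ((n + 1 : ℕ) + 1) x)) (F x)},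
        ∀ x, ‖x‖ ≤ n + 1 → G.1 x = F.1 x := by
    rintro n ⟨F, hF, hFo⟩
    have hn : (0 : ℝ) ≤ n := Nat.cast_nonneg n
    have g1 : ∀ s ∈ Icc (0 : ℝ) 1, ∀ s' ∈ Icc (0 : ℝ) 1, ∀ x : E,
        ‖rad (n + 1 + |s|) x - rad (n + 1 + |s'|) x‖ ≤ |s - s'| := by
      intro s hs s' hs' x
      refine (norm_rad_sub (by positivity) (by positivity) x).trans ?_
      rw [abs_of_nonneg hs.1, abs_of_nonneg hs'.1]
      simp
    have g2 : ∀ s ∈ Icc (0 : ℝ) 1, ∀ x : E, ‖rad (n + 1 + |s|) x‖ ≤ (n : ℝ) + 2 := by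
      intro s hs x
      rw [norm_rad (by positivity)]
      refine (min_le_left _ _).trans ?_
      rw [abs_of_nonneg hs.1]
      linarith [hs.2]
    obtain ⟨G, hG, hGo, hGF⟩ := lift_along p hp hpp ((n : ℝ) + 2)
      (fun s x => rad (n + 1 + |s|) x)
      (fun s => continuous_rad (by positivity)) g1 g2 F hF
      (by intro x; simpa using hFo x)
    refine ⟨⟨G, hG, ?_⟩, ?_⟩
    · intro x
      have := hGo x
      simpa using this
    · intro x hx
      apply hGF
      intro s
      rw [rad_of_le (by positivity), rad_of_le (by positivity)]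
      · simpa using hx
      · have := abs_nonneg s
        linarith
  choose stepf hstepf using step
  obtain ⟨F0, hF0, hF0o⟩ := start
  let S : (n : ℕ) → {F : E → ℍ // Continuous F ∧ ∀ x, Over (p (rad (n + 1) x)) (F x)} :=
    fun n => Nat.rec ⟨F0, hF0, by simpa using hF0o⟩ (fun n F => stepf n F) n
  have hS : ∀ (n : ℕ) (x : E), ‖x‖ ≤ n + 1 → (S (n + 1)).1 x = (S n).1 x := fun n x hx => hstepf n (S n) x hx
  have hS2 : ∀ (n m : ℕ) (x : E), n ≤ m → ‖x‖ ≤ n + 1 → (S m).1 x = (S n).1 x := by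
    intro n m x hnm hx
    induction m, hnm using Nat.le_induction with
    | base => rfl
    | succ m hnm ih =>
      rw [hS m x, ih]
      refine hx.trans ?_
      have : (n : ℝ) ≤ m := by exact_mod_cast hnm
      linarith
  have hS3 : ∀ (n m : ℕ) (x : E), ‖x‖ ≤ n + 1 → ‖x‖ ≤ m + 1 → (S m).1 x = (S n).1 x := by
    intro n m x hn hm
    rcases le_total n m with h | h
    · exact hS2 n m x h hn
    · exact (hS2 m n x h hm).symm
  refine ⟨fun x => (S ⌈‖x‖⌉₊).1 x, ?_, ?_⟩
  · rw [continuous_iff_continuousAt]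
    intro x
    set n := ⌈‖x‖⌉₊ with hn
    have h1 : ‖x‖ < n + 1 := by
      have := Nat.le_ceil ‖x‖
      rw [← hn] at this
      linarith
    have h2 : (fun y => (S ⌈‖y‖⌉₊).1 y) =ᶠ[𝓝 x] (S n).1 := by
      have : {y : E | ‖y‖ < n + 1} ∈ 𝓝 x :=
        (isOpen_lt continuous_norm continuous_const).mem_nhds h1
      filter_upwards [this] with y hy
      apply hS3
      · exact le_of_lt hy
      · exact (Nat.le_ceil _).trans (by simp)
    exact ((S n).2.1.continuousAt).congr h2.symm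
  · intro x
    have h1 := (S ⌈‖x‖⌉₊).2.2 x
    rwa [rad_of_le (by positivity)] at h1
    exact (Nat.le_ceil _).trans (by simp)

end Pool.Agent.MP74810d
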