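import Mathlib
import Pool.Agent.Lib.MP_74810d_gt.Flow

/-!
A continuous section of the orbit map over the closed set of non-compact orbits:
on each such orbit we take a weighted average of the times at which the orbit leaves a
compact set for the last time.
-/

open Metric Set Topology Filter MeasureTheory

namespace Pool.Agent.MP74810d

section Profile
/-! ### One dimensional profiles -/

variable (c : ℝ)

/-- mass between `t` and `0` -/
noncomputable def mm (G : ℝ → ℝ) (t : ℝ) : ℝ := ∫ r in t..0, G r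

/-- weight -/
noncomputable def ww (G : ℝ → ℝ) (t : ℝ) : ℝ := max 0 (c - mm G t) * G t

noncomputable def J0 (G : ℝ → ℝ) (T : ℝ) : ℝ := ∫ t in (-T)..0, ww c G t

noncomputable def J1 (G : ℝ → ℝ) (T : ℝ) : ℝ := ∫ t in (-T)..0, t * ww c G t

theorem mm_eq (G : ℝ → ℝ) (t : ℝ) : mm G t = - ∫ r in (0 : ℝ)..t, G r := by
  rw [mm, intervalIntegral.integral_symm]

theorem continuous_mm {G : ℝ → ℝ} (hG : Continuous G) : Continuous (mm G) := by
  have : mm G = fun t => - ∫ r in (0 : ℝ)..t, G r := funext (mm_eq G)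
  rw [this]
  exact (intervalIntegral.continuous_primitive (fun a b => hG.intervalIntegrable a b) 0).neg

theorem continuous_ww {G : ℝ → ℝ} (hG : Continuous G) : Continuous (ww c G) := by
  have := continuous_mm hG
  unfold ww
  fun_prop

theorem mm_anti {G : ℝ → ℝ} (hG : Continuous G) (h0 : ∀ r, 0 ≤ G r) {s t : ℝ} (hst : s ≤ t) :
    mm G t ≤ mm G s := by
  have h1 : mm G s = (∫ r in s..t, G r) + mm G t :=
    (intervalIntegral.integral_add_adjacent_intervals (hG.intervalIntegrable _ _)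
      (hG.intervalIntegrable _ _)).symm
  have h2 : 0 ≤ ∫ r in s..t, G r := intervalIntegral.integral_nonneg_of_forall hst h0
  linarith

theorem ww_nonneg {G : ℝ → ℝ} (h0 : ∀ r, 0 ≤ G r) (t : ℝ) : 0 ≤ ww c G t :=
  mul_nonneg (le_max_left _ _) (h0 t)

variable {c}

theorem ww_eq_zero {G : ℝ → ℝ} (hG : Continuous G) (h0 : ∀ r, 0 ≤ G r) {T t : ℝ}
    (hT : c ≤ mm G (-T)) (ht : t ≤ -T) : ww c G t = 0 := by
  have := mm_anti hG h0 ht
  unfold ww
  rw [max_eq_left (by linarith), zero_mul]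

theorem J0_stable {G : ℝ → ℝ} (hG : Continuous G) (h0 : ∀ r, 0 ≤ G r) {T T' : ℝ}
    (hT : c ≤ mm G (-T)) (hTT' : T ≤ T') : J0 c G T' = J0 c G T := by
  have hw := continuous_ww c hG
  have h1 : J0 c G T' = (∫ t in (-T')..(-T), ww c G t) + J0 c G T :=
    (intervalIntegral.integral_add_adjacent_intervals (hw.intervalIntegrable _ _)
      (hw.intervalIntegrable _ _)).symm
  have h2 : ∫ t in (-T')..(-T), ww c G t = ∫ t in (-T')..(-T), (0 : ℝ) := by
    apply intervalIntegral.integral_congr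
    intro t ht
    rw [uIcc_of_le (by linarith)] at ht
    exact ww_eq_zero hG h0 hT ht.2
  rw [h1, h2]; simp

theorem J1_stable {G : ℝ → ℝ} (hG : Continuous G) (h0 : ∀ r, 0 ≤ G r) {T T' : ℝ}
    (hT : c ≤ mm G (-T)) (hTT' : T ≤ T') : J1 c G T' = J1 c G T := by
  have hw := continuous_ww c hG
  have hw1 : Continuous fun t => t * ww c G t := by fun_prop
  have h1 : J1 c G T' = (∫ t in (-T')..(-T), t * ww c G t) + J1 c G T :=
    (intervalIntegral.integral_add_adjacent_intervals (hw1.intervalIntegrable _ _)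
      (hw1.intervalIntegrable _ _)).symm
  have h2 : ∫ t in (-T')..(-T), t * ww c G t = ∫ t in (-T')..(-T), (0 : ℝ) := by
    apply intervalIntegral.integral_congr
    intro t ht
    rw [uIcc_of_le (by linarith)] at ht
    simp only
    rw [ww_eq_zero hG h0 hT ht.2, mul_zero]
  rw [h1, h2]; simp

theorem J0_pos {G : ℝ → ℝ} (hG : Continuous G) (h0 : ∀ r, 0 ≤ G r) {T : ℝ} (hc : 0 < c)
    (hT0 : 0 ≤ T) (hT : c ≤ mm G (-T)) : 0 < J0 c G T := by
  have hw := continuous_ww c hG
  have hT1 : 0 < T := by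
    rcases hT0.eq_or_lt with rfl | h
    · simp [mm] at hT; linarith
    · exact h
  -- a time with mass exactly `c / 2`
  have hm0 : mm G 0 = 0 := by simp [mm]
  obtain ⟨t₁, ht₁, hmt₁⟩ : c / 2 ∈ mm G '' Icc (-T) 0 := by
    apply intermediate_value_Icc' (by linarith) (continuous_mm hG).continuousOn
    rw [hm0]
    constructor <;> linarith
  -- a later time with positive density
  obtain ⟨t, ht, htG⟩ : ∃ t ∈ Icc t₁ 0, 0 < G t := by
    by_contra hcon
    push Not at hcon
    have h2 : mm G t₁ = ∫ t in t₁..0, (0 : ℝ) := by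
      apply intervalIntegral.integral_congr
      intro t ht
      rw [uIcc_of_le ht₁.2] at ht
      exact le_antisymm (hcon t ht) (h0 t)
    simp at h2
    linarith
  apply intervalIntegral.integral_pos (by linarith) hw.continuousOn
  · intro s _
    exact ww_nonneg c h0 s
  · refine ⟨t, ⟨ht₁.1.trans ht.1, ht.2⟩, ?_⟩
    have h3 := mm_anti hG h0 ht.1
    exact mul_pos (lt_max_of_lt_right (by linarith)) htG

theorem mm_shift {G : ℝ → ℝ} (hG : Continuous G) (hterm : ∀ r, 0 < r → G r = 0) {s : ℝ}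
    (hs : 0 ≤ s) (t : ℝ) : mm (fun r => G (r + s)) t = mm G (t + s) := by
  unfold mm
  rw [intervalIntegral.integral_comp_add_right, zero_add]
  have h1 : (∫ r in (t + s)..0, G r) + (∫ r in (0 : ℝ)..s, G r) = ∫ r in (t + s)..s, G r :=
    intervalIntegral.integral_add_adjacent_intervals (hG.intervalIntegrable _ _)
      (hG.intervalIntegrable _ _)
  have h2 : ∫ r in (0 : ℝ)..s, G r = 0 := by
    rw [intervalIntegral.integral_of_le hs]
    apply setIntegral_eq_zero_of_forall_eq_zero
    intro r hr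
    exact hterm r hr.1
  rw [← h1, h2, add_zero]

theorem ww_shift {G : ℝ → ℝ} (hG : Continuous G) (hterm : ∀ r, 0 < r → G r = 0) {s : ℝ}
    (hs : 0 ≤ s) (t : ℝ) : ww c (fun r => G (r + s)) t = ww c G (t + s) := by
  unfold ww
  rw [mm_shift hG hterm hs]

theorem J0_shift {G : ℝ → ℝ} (hG : Continuous G) (hterm : ∀ r, 0 < r → G r = 0) {s : ℝ}
    (hs : 0 ≤ s) (T : ℝ) : J0 c (fun r => G (r + s)) (T + s) = J0 c G T := by
  have hw := continuous_ww c hG
  unfold J0
  simp only [ww_shift hG hterm hs]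
  rw [intervalIntegral.integral_comp_add_right (fun t => ww c G t), zero_add]
  rw [show -(T + s) + s = -T by ring]
  rw [← intervalIntegral.integral_add_adjacent_intervals (hw.intervalIntegrable (-T) 0)
      (hw.intervalIntegrable 0 s)]
  have h2 : ∫ r in (0 : ℝ)..s, ww c G r = 0 := by
    rw [intervalIntegral.integral_of_le hs]
    apply setIntegral_eq_zero_of_forall_eq_zero
    intro r hr
    simp [ww, hterm r hr.1]
  rw [h2, add_zero]

theorem J1_shift {G : ℝ → ℝ} (hG : Continuous G) (hterm : ∀ r, 0 < r → G r = 0) {s : ℝ}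
    (hs : 0 ≤ s) (T : ℝ) :
    J1 c (fun r => G (r + s)) (T + s) = J1 c G T - s * J0 c G T := by
  have hw := continuous_ww c hG
  unfold J1 J0
  simp only [ww_shift hG hterm hs]
  have h0 : ∀ t, t * ww c G (t + s) = (fun t => (t - s) * ww c G t) (t + s) := by
    intro t; simp
  simp only [h0]
  rw [intervalIntegral.integral_comp_add_right (fun t => (t - s) * ww c G t), zero_add]
  rw [show -(T + s) + s = -T by ring]
  have hw1 : Continuous fun t => (t - s) * ww c G t := by fun_prop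
  rw [← intervalIntegral.integral_add_adjacent_intervals (hw1.intervalIntegrable (-T) 0)
      (hw1.intervalIntegrable 0 s)]
  have h2 : ∫ r in (0 : ℝ)..s, (r - s) * ww c G r = 0 := by
    rw [intervalIntegral.integral_of_le hs]
    apply setIntegral_eq_zero_of_forall_eq_zero
    intro r hr
    simp [ww, hterm r hr.1]
  rw [h2, add_zero]
  have h3 : ∀ t, (t - s) * ww c G t = t * ww c G t - s * ww c G t := fun t => by ring
  simp only [h3]
  rw [intervalIntegral.integral_sub, intervalIntegral.integral_const_mul]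
  · exact (by fun_prop : Continuous fun t => t * ww c G t).intervalIntegrable _ _
  · exact (by fun_prop : Continuous fun t => s * ww c G t).intervalIntegrable _ _

/-- time average -/
noncomputable def tb (c : ℝ) (G : ℝ → ℝ) (T : ℝ) : ℝ := J1 c G T / J0 c G T

theorem tb_stable {G : ℝ → ℝ} (hG : Continuous G) (h0 : ∀ r, 0 ≤ G r) {T T' : ℝ}
    (hT : c ≤ mm G (-T)) (hTT' : T ≤ T') : tb c G T' = tb c G T := by
  unfold tb
  rw [J0_stable hG h0 hT hTT', J1_stable hG h0 hT hTT']

theorem tb_shift {G : ℝ → ℝ} (hG : Continuous G) (hterm : ∀ r, 0 < r → G r = 0) {s : ℝ}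
    (hs : 0 ≤ s) (T : ℝ) (hJ : J0 c G T ≠ 0) :
    tb c (fun r => G (r + s)) (T + s) = tb c G T - s := by
  unfold tb
  rw [J0_shift hG hterm hs, J1_shift hG hterm hs]
  field_simp

end Profile

variable {M Q : Type*} [MetricSpace M] [ProperSpace M] [MetricSpace Q]

namespace FlowOrb

variable {Φ : ℝ → M → M} {q : M → Q} (h : FlowOrb Φ q)
include h

/-- density along the orbit of `z` -/
def dens (_h : FlowOrb Φ q) (ρ : M → ℝ) (z : M) (t : ℝ) : ℝ := ρ (Φ t z)

omit [ProperSpace M] in
theorem continuous_dens {ρ : M → ℝ} (hρ : Continuous ρ) :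
    Continuous fun p : M × ℝ => h.dens ρ p.1 p.2 := by
  unfold dens
  exact hρ.comp (h.cont.comp (by fun_prop : Continuous fun p : M × ℝ => (p.2, p.1)))

omit [ProperSpace M] in
theorem continuous_dens' {ρ : M → ℝ} (hρ : Continuous ρ) (z : M) :
    Continuous (h.dens ρ z) :=
  (h.continuous_dens hρ).comp (by fun_prop : Continuous fun t : ℝ => (z, t))

omit [ProperSpace M] in
theorem dens_flow {ρ : M → ℝ} (s : ℝ) (z : M) :
    h.dens ρ (Φ s z) = fun r => h.dens ρ z (r + s) := by
  ext r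
  simp [dens, h.add]

omit [ProperSpace M] in
theorem continuous_mm_dens {ρ : M → ℝ} (hρ : Continuous ρ) :
    Continuous fun p : M × ℝ => mm (h.dens ρ p.1) p.2 := by
  have h1 := h.continuous_dens hρ
  have h2 : (fun p : M × ℝ => mm (h.dens ρ p.1) p.2) =
      fun p => - ∫ r in (0 : ℝ)..p.2, h.dens ρ p.1 r := by
    ext p; rw [mm_eq]
  rw [h2]
  refine Continuous.neg ?_
  exact intervalIntegral.continuous_parametric_primitive_of_continuous
    (f := fun z t => h.dens ρ z t) h1

omit [ProperSpace M] in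
theorem continuous_ww_dens {ρ : M → ℝ} (hρ : Continuous ρ) (c : ℝ) :
    Continuous fun p : M × ℝ => ww c (h.dens ρ p.1) p.2 := by
  have h1 := h.continuous_dens hρ
  have h2 := h.continuous_mm_dens hρ
  unfold ww
  fun_prop

omit [ProperSpace M] in
theorem continuous_J0 {ρ : M → ℝ} (hρ : Continuous ρ) (c T : ℝ) :
    Continuous fun z => J0 c (h.dens ρ z) T := by
  unfold J0
  exact intervalIntegral.continuous_parametric_intervalIntegral_of_continuous'
    (f := fun z t => ww c (h.dens ρ z) t) (h.continuous_ww_dens hρ c) _ _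

omit [ProperSpace M] in
theorem continuous_J1 {ρ : M → ℝ} (hρ : Continuous ρ) (c T : ℝ) :
    Continuous fun z => J1 c (h.dens ρ z) T := by
  unfold J1
  have h1 := h.continuous_ww_dens hρ c
  exact intervalIntegral.continuous_parametric_intervalIntegral_of_continuous'
    (f := fun z t => t * ww c (h.dens ρ z) t) (by
      change Continuous fun p : M × ℝ => p.2 * ww c (h.dens ρ p.1) p.2
      fun_prop) _ _

/-- the averaged point -/
noncomputable def xs (h : FlowOrb Φ q) (ρ : M → ℝ) (c : ℝ) (z : M) (T : ℝ) : M :=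
  Φ (tb c (h.dens ρ z) T) z

/-- terminal points with enough mass in the past -/
def Good (h : FlowOrb Φ q) (ρ : M → ℝ) (c : ℝ) (z : M) (T : ℝ) : Prop :=
  (∀ t, 0 < t → h.dens ρ z t = 0) ∧ 0 ≤ T ∧ c ≤ mm (h.dens ρ z) (-T)

omit [ProperSpace M] in
theorem xs_eq_aux {ρ : M → ℝ} (hρ : Continuous ρ) (hρ0 : ∀ x, 0 ≤ ρ x) {c : ℝ} (hc : 0 < c)
    {z z' : M} {T T' s : ℝ} (hs : 0 ≤ s) (hz' : Φ s z = z') (hz : h.Good ρ c z T)
    (hz'g : h.Good ρ c z' T') : h.xs ρ c z' T' = h.xs ρ c z T := by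
  subst hz'
  have hG := h.continuous_dens' hρ z
  have hG0 : ∀ r, 0 ≤ h.dens ρ z r := fun r => hρ0 _
  have hG' := h.continuous_dens' hρ (Φ s z)
  have hG0' : ∀ r, 0 ≤ h.dens ρ (Φ s z) r := fun r => hρ0 _
  set S := max T T' with hS
  have h1 : h.xs ρ c z T = h.xs ρ c z S := by
    unfold xs
    rw [tb_stable hG hG0 hz.2.2 (le_max_left _ _)]
  have h2 : h.xs ρ c (Φ s z) T' = h.xs ρ c (Φ s z) (S + s) := by
    unfold xs
    have hTS : T' ≤ S + s := by
      have : T' ≤ S := le_max_right _ _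
      linarith
    rw [tb_stable hG' hG0' hz'g.2.2 hTS]
  rw [h1, h2]
  unfold xs
  have hJ : J0 c (h.dens ρ z) S ≠ 0 := by
    apply ne_of_gt
    apply J0_pos hG hG0 hc (hz.2.1.trans (le_max_left _ _))
    refine hz.2.2.trans (mm_anti hG hG0 ?_)
    simp
  rw [h.dens_flow, tb_shift hG hz.1 hs S hJ, ← h.add]
  ring_nf

omit [ProperSpace M] in
theorem xs_eq {ρ : M → ℝ} (hρ : Continuous ρ) (hρ0 : ∀ x, 0 ≤ ρ x) {c : ℝ} (hc : 0 < c)
    {z z' : M} {T T' : ℝ} (hzz' : q z = q z') (hz : h.Good ρ c z T)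
    (hz'g : h.Good ρ c z' T') : h.xs ρ c z' T' = h.xs ρ c z T := by
  obtain ⟨s, hs⟩ := (h.fib _ _).1 hzz'
  rcases le_total 0 s with h1 | h1
  · exact h.xs_eq_aux hρ hρ0 hc h1 hs hz hz'g
  · refine (h.xs_eq_aux hρ hρ0 hc (s := -s) (by linarith) ?_ hz'g hz).symm
    rw [← hs, h.inv_flow]

/-- existence of a continuous section over the set of noncompact orbits -/
theorem exists_section {ρ : M → ℝ} (hρ : Continuous ρ) (hρ0 : ∀ x, 0 ≤ ρ x) {K : Set M}
    (hK : IsCompact K) (hρK : ∀ x, x ∉ K → ρ x = 0) {c : ℝ} (hc : 0 < c) {A : Set Q}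
    (hA : ∀ y ∈ A, ¬ IsCompact (q ⁻¹' {y}))
    (hmass : ∀ y ∈ A, ∃ x, q x = y ∧ c < ∫ t in (-1 : ℝ)..1, ρ (Φ t x)) :
    ∃ σ : Q → M, ContinuousOn σ A ∧ ∀ y ∈ A, q (σ y) = y := by
  classical
  -- terminal points
  have hterm : ∀ y ∈ A, ∃ z ∈ K, q z = y ∧ (∀ t, 0 < t → Φ t z ∉ K) := by
    intro y hy
    obtain ⟨x, rfl, hx⟩ := hmass y hy
    have hprop := (h.periodic_or_proper x).resolve_left (by
      rintro ⟨T, hT, hTx⟩
      exact hA _ hy (h.periodic_compact hT hTx))
    have hS := hprop.2 K hK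
    have hSne : {t | Φ t x ∈ K}.Nonempty := by
      by_contra hne
      rw [not_nonempty_iff_eq_empty, eq_empty_iff_forall_notMem] at hne
      have : ∀ t, ρ (Φ t x) = 0 := fun t => hρK _ (hne t)
      simp [this] at hx
      linarith
    obtain ⟨t₀, ht₀, ht₀m⟩ := hS.exists_isGreatest hSne
    refine ⟨Φ t₀ x, ht₀, h.q_flow _ _, ?_⟩
    intro t ht hcon
    rw [← h.add] at hcon
    have := ht₀m hcon
    linarith
  -- the mass bound at a point of the orbit without future mass
  have hbig : ∀ z, q z ∈ A → (∀ t, 0 < t → h.dens ρ z t = 0) →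
      ∃ T, 0 ≤ T ∧ c < mm (h.dens ρ z) (-T) := by
    intro z hz hzt
    obtain ⟨x, hx, hxm⟩ := hmass _ hz
    obtain ⟨s, hs⟩ := (h.fib _ _).1 hx.symm
    subst hs
    refine ⟨|s| + 1, by positivity, ?_⟩
    have hG := h.continuous_dens' hρ z
    have h1 : ∫ t in (-1 : ℝ)..1, ρ (Φ t (Φ s z)) =
        ∫ t in (-1 + s)..(1 + s), h.dens ρ z t := by
      rw [← intervalIntegral.integral_comp_add_right (fun t => h.dens ρ z t)]
      simp [dens, h.add]
    rw [h1] at hxm
    refine lt_of_lt_of_le hxm ?_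
    have h2 : ∫ t in (-1 + s)..(1 + s), h.dens ρ z t ≤
        ∫ t in (-(|s| + 1))..(|s| + 1), h.dens ρ z t := by
      apply intervalIntegral.integral_mono_interval
      · have := neg_abs_le s; linarith
      · linarith
      · have := le_abs_self s; linarith
      · exact Eventually.of_forall fun t => hρ0 _
      · exact hG.intervalIntegrable _ _
    refine h2.trans (le_of_eq ?_)
    unfold mm
    rw [← intervalIntegral.integral_add_adjacent_intervals
      (hG.intervalIntegrable (-(|s| + 1)) 0) (hG.intervalIntegrable 0 (|s| + 1))]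
    have h3 : ∫ t in (0 : ℝ)..(|s| + 1), h.dens ρ z t = 0 := by
      rw [intervalIntegral.integral_of_le (by positivity)]
      apply setIntegral_eq_zero_of_forall_eq_zero
      intro r hr
      exact hzt r hr.1
    rw [h3, add_zero]
  have hgood : ∀ y ∈ A, ∃ z T, q z = y ∧ h.Good ρ c z T := by
    intro y hy
    obtain ⟨z, -, hzy, hzt⟩ := hterm y hy
    have hzt' : ∀ t, 0 < t → h.dens ρ z t = 0 := fun t ht => hρK _ (hzt t ht)
    obtain ⟨T, hT0, hT⟩ := hbig z (hzy ▸ hy) hzt'
    exact ⟨z, T, hzy, hzt', hT0, hT.le⟩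
  have hgood' : ∀ y : Q, ∃ z T, y ∈ A → (q z = y ∧ h.Good ρ c z T) := by
    intro y
    by_cases hy : y ∈ A
    · obtain ⟨z, T, hz⟩ := hgood y hy
      exact ⟨z, T, fun _ => hz⟩
    · obtain ⟨z, -⟩ := h.qsurj y
      exact ⟨z, 0, fun hy' => absurd hy' hy⟩
  choose zz TT hzg using hgood'
  have hzz : ∀ y ∈ A, q (zz y) = y := fun y hy => (hzg y hy).1
  have hgd : ∀ y ∈ A, h.Good ρ c (zz y) (TT y) := fun y hy => (hzg y hy).2
  refine ⟨fun y => h.xs ρ c (zz y) (TT y), ?_, ?_⟩
  · -- continuity, sequentially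
    have hval : ∀ y ∈ A, ∀ z T, q z = y → h.Good ρ c z T →
        h.xs ρ c (zz y) (TT y) = h.xs ρ c z T := by
      intro y hy z T hzy hg
      exact h.xs_eq hρ hρ0 hc (hzy.trans (hzz y hy).symm) hg (hgd y hy)
    rw [continuousOn_iff_continuous_domRestrict]
    rw [continuous_iff_seqContinuous]
    intro u y hu
    apply tendsto_of_subseq_tendsto
    intro φ hφ
    have hchoice : ∀ n, ∃ z ∈ K, q z = (u (φ n) : Q) ∧ (∀ t, 0 < t → Φ t z ∉ K) :=
      fun n => hterm _ (u (φ n)).2
    choose zn hznK hznq hznt using hchoice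
    obtain ⟨z, hzK, ψ, hψ, hlim⟩ := hK.tendsto_subseq hznK
    have hqz : q z = y := by
      have h1 := (h.qcont.tendsto z).comp hlim
      have h2 : Tendsto (fun n => ((u (φ (ψ n)) : Q))) atTop (𝓝 (y : Q)) :=
        (continuous_subtype_val.tendsto y).comp
          (hu.comp (hφ.comp hψ.tendsto_atTop))
      refine tendsto_nhds_unique h1 (h2.congr fun n => ?_)
      simp [hznq]
    have hzt : ∀ t, 0 < t → h.dens ρ z t = 0 := by
      intro t ht
      have h1 : Tendsto (fun n => ρ (Φ t (zn (ψ n)))) atTop (𝓝 (ρ (Φ t z))) :=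
        ((hρ.comp (h.cont_x t)).tendsto z).comp hlim
      have h2 : ∀ n, ρ (Φ t (zn (ψ n))) = 0 := fun n => hρK _ (hznt _ t ht)
      simp only [h2] at h1
      exact (tendsto_nhds_unique h1 tendsto_const_nhds)
    obtain ⟨T, hT0, hT⟩ := hbig z (hqz ▸ y.2) hzt
    refine ⟨ψ, ?_⟩
    have hcont : ContinuousAt (fun z => h.xs ρ c z T) z := by
      unfold xs tb
      have hJ : J0 c (h.dens ρ z) T ≠ 0 :=
        (J0_pos (h.continuous_dens' hρ z) (fun r => hρ0 _) hc hT0 hT.le).ne'
      have h1 := (h.continuous_J0 hρ c T).continuousAt (x := z)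
      have h2 := (h.continuous_J1 hρ c T).continuousAt (x := z)
      have h3 := h2.div h1 hJ
      exact h.cont.continuousAt.comp (h3.prodMk continuousAt_id)
    have h1 : Tendsto (fun n => h.xs ρ c (zn (ψ n)) T) atTop (𝓝 (h.xs ρ c z T)) :=
      hcont.tendsto.comp hlim
    have h2 : ∀ᶠ n in atTop, c < mm (h.dens ρ (zn (ψ n))) (-T) := by
      have h3 : Continuous fun z => mm (h.dens ρ z) (-T) :=
        (h.continuous_mm_dens hρ).comp (by fun_prop : Continuous fun z : M => (z, -T))
      exact ((h3.tendsto z).comp hlim).eventually (lt_mem_nhds hT)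
    have h4 : domRestrict A (fun y => h.xs ρ c (zz y) (TT y)) y = h.xs ρ c z T := by
      simp only [domRestrict_apply]
      exact hval _ y.2 z T hqz ⟨hzt, hT0, hT.le⟩
    rw [h4]
    refine h1.congr' ?_
    filter_upwards [h2] with n hn
    simp only [Function.comp, domRestrict_apply]
    exact (hval _ (u (φ (ψ n))).2 _ T (hznq _)
      ⟨fun t ht => hρK _ (hznt _ t ht), hT0, hn.le⟩).symm
  · intro y hy
    simp only [xs]
    rw [h.q_flow, hzz y hy]

end FlowOrb

end Pool.Agent.MP74810d
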