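import Mathlib
import Pool.Agent.Lib.MP_74810d_gt.Section
import Pool.Agent.Lib.MP_74810d_gt.Global
import Pool.Agent.Lib.MP_74810d_gt.Gauge
import Pool.Agent.Lib.MP_74810d_gt.HopfLift

/-!
The product of two two-spheres is not the orbit space of a flow on a Euclidean space.
-/

open Metric Set Topology Filter Quaternion
open scoped Quaternion

namespace Pool.Agent.MP74810d

theorem Over.unique {p p' u : ℍ} (h : Over p u) (h' : Over p' u) : p = p' := by
  have h1 : p * u = p' * u := by rw [← h.2, ← h'.2]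
  exact mul_right_cancel₀ h.ne_zero h1

variable {E : Type*} [NormedAddCommGroup E] [InnerProductSpace ℝ E] [FiniteDimensional ℝ E]
variable {Q : Type*} [MetricSpace Q]

/-- the section over the noncompact orbits -/
theorem exists_section' [CompactSpace Q] {Φ : ℝ → E → E} {q : E → Q} (h : FlowOrb Φ q) :
    ∃ σ : Q → E, ContinuousOn σ {y | ¬ IsCompact (q ⁻¹' {y})} ∧
      ∀ y, ¬ IsCompact (q ⁻¹' {y}) → q (σ y) = y := by
  obtain ⟨n, hn⟩ : ∃ n : ℕ, univ ⊆ q '' ball 0 n := by
    refine isCompact_univ.elim_directed_cover (fun n : ℕ => q '' ball 0 n)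
      (fun n => h.qopen _ isOpen_ball) ?_ ?_
    · intro y _
      obtain ⟨x, rfl⟩ := h.qsurj y
      obtain ⟨n, hn⟩ := exists_nat_gt ‖x‖
      exact mem_iUnion.2 ⟨n, x, by simpa using hn, rfl⟩
    · refine directed_of_isDirected_le ?_
      intro m n hmn
      exact image_mono (ball_subset_ball (by exact_mod_cast hmn))
  set ρ : E → ℝ := fun x => max 0 (n + 1 - ‖x‖) with hρ
  have hρc : Continuous ρ := by simp only [hρ]; fun_prop
  have hρ0 : ∀ x, 0 ≤ ρ x := fun x => le_max_left _ _
  have hρK : ∀ x, x ∉ closedBall (0 : E) (n + 1) → ρ x = 0 := by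
    intro x hx
    rw [mem_closedBall, dist_zero_right, not_le] at hx
    exact max_eq_left (by linarith)
  have hμc : Continuous fun x => ∫ t in (-1 : ℝ)..1, ρ (Φ t x) := by
    refine intervalIntegral.continuous_parametric_intervalIntegral_of_continuous'
      (f := fun x t => ρ (Φ t x)) ?_ _ _
    exact hρc.comp (h.cont.comp (by fun_prop : Continuous fun p : E × ℝ => (p.2, p.1)))
  obtain ⟨a, ha, hab⟩ := (isCompact_closedBall (0 : E) n).exists_forall_le'
    (f := fun x => ∫ t in (-1 : ℝ)..1, ρ (Φ t x)) hμc.continuousOn (a := 0) (by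
      intro x hx
      rw [mem_closedBall, dist_zero_right] at hx
      refine intervalIntegral.integral_pos (by norm_num) ?_ (fun t _ => hρ0 _) ?_
      · exact (hρc.comp (h.cont_t x)).continuousOn
      · refine ⟨0, by constructor <;> norm_num, ?_⟩
        rw [h.zero]
        exact lt_max_of_lt_right (by linarith))
  obtain ⟨σ, hσ, hσq⟩ := h.exists_section hρc hρ0 (isCompact_closedBall (0 : E) (n + 1)) hρK
    (c := a / 2) (by linarith) (A := {y | ¬ IsCompact (q ⁻¹' {y})}) (fun y hy => hy) (by
      intro y _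
      obtain ⟨x, hx, hxy⟩ := hn (mem_univ y)
      have := hab x (ball_subset_closedBall hx)
      exact ⟨x, hxy, by linarith⟩)
  exact ⟨σ, hσ, fun y hy => hσq y hy⟩

theorem no_flow (hE : 2 < Module.finrank ℝ E) [CompactSpace Q] [PreconnectedSpace Q]
    {Φ : ℝ → E → E} {q : E → Q} (h : FlowOrb Φ q) (p : Fin 2 → Q → ℍ)
    (hpc : ∀ i, Continuous (p i)) (hp : ∀ i y, p i y * p i y = -1)
    (Hm : (Fin 2 → sphere (0 : ℍ) 1) → Q) (hHc : Continuous Hm)
    (hHo : ∀ w i, Over (p i (Hm w)) (w i))
    (hinj : ∀ w w', (∀ i, p i (Hm w) = p i (Hm w')) → Hm w = Hm w') : False := by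
  classical
  have hone : (1 : ℍ) ∈ sphere (0 : ℍ) 1 := by simp
  set w₀ : Fin 2 → sphere (0 : ℍ) 1 := fun _ => ⟨1, hone⟩ with hw₀
  -- moving along a Hopf circle does not change the point
  have hHmove : ∀ (j : Fin 2) (u : sphere (0 : ℍ) 1) (ζ : Circle),
      (u : ℍ) = (w₀ j : ℍ) * cq ζ → Hm (Function.update w₀ j u) = Hm w₀ := by
    intro j u ζ hu
    apply hinj
    intro i
    by_cases hij : i = j
    · subst hij
      have h1 := hHo (Function.update w₀ i u) i
      rw [Function.update_self, hu] at h1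
      exact h1.unique ((hHo w₀ i).mul_cq ζ)
    · have h1 := hHo (Function.update w₀ j u) i
      rw [Function.update_of_ne hij] at h1
      exact h1.unique (hHo w₀ i)
  -- the Hopf lifts
  have hlift : ∀ i, ∃ F : E → ℍ, Continuous F ∧ ∀ x, Over (p i (q x)) (F x) := fun i =>
    exists_hopf_lift (fun x => p i (q x)) ((hpc i).comp h.qcont) (fun x => hp i _)
  choose F hF hFo using hlift
  obtain ⟨σ, hσ, hσq⟩ := exists_section' h
  set A : Set Q := {y | ¬ IsCompact (q ⁻¹' {y})} with hAdef
  have hA : IsClosed A := by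
    have := h.isOpen_compactSet.isClosed_compl
    exact this
  by_cases hAuniv : A = univ
  · -- no compact orbit at all
    rw [hAuniv, continuousOn_univ] at hσ
    have hσq' : ∀ y, q (σ y) = y := fun y => hσq y (by
      have : y ∈ A := by rw [hAuniv]; trivial
      exact this)
    set s : sphere (0 : ℍ) 1 → Circle := fun u =>
      rat u (F 0 (σ (Hm (Function.update w₀ 0 u)))) with hs
    have hFov : ∀ y, Over (p 0 y) (F 0 (σ y)) := by
      intro y
      have := hFo 0 (σ y)
      rwa [hσq'] at this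
    have huov : ∀ u : sphere (0 : ℍ) 1, Over (p 0 (Hm (Function.update w₀ 0 u))) u := by
      intro u
      have := hHo (Function.update w₀ 0 u) 0
      rwa [Function.update_self] at this
    have hsc : Continuous s := by
      rw [← continuousOn_univ]
      refine continuousOn_rat (p := fun u => p 0 (Hm (Function.update w₀ 0 u)))
        (fun u _ => hp 0 _) continuous_subtype_val.continuousOn ?_ (fun u _ => huov u)
        (fun u _ => hFov _)
      have h1 : Continuous fun u : sphere (0 : ℍ) 1 => Function.update w₀ 0 u :=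
        continuous_const.update 0 continuous_id
      exact ((hF 0).comp (hσ.comp (hHc.comp h1))).continuousOn
    have := degree_zero (a := -1) hsc (w₀ 0) (by
      intro α u hu
      have h1 := hHmove 0 u _ hu
      simp only [hs]
      rw [h1]
      have h2 : Function.update w₀ 0 (w₀ 0) = w₀ := Function.update_eq_self 0 w₀
      rw [h2]
      have h3 : Over (p 0 (Hm w₀)) (w₀ 0) := hHo w₀ 0
      have h4 : Over (p 0 (Hm w₀)) u := by rw [hu]; exact h3.mul_cq _
      have h5 := h4.rat_trans (hp 0 _) h3 (hFov (Hm w₀))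
      have h6 := h3.rat_inv (hp 0 _) h4
      rw [← h5, ← h6, hu, rat_mul_self h3.1, zpow_neg_one, mul_comm])
    norm_num at this
  -- a compact orbit
  obtain ⟨y₁, hy₁⟩ : ∃ y₁, IsCompact (q ⁻¹' {y₁}) := by
    by_contra hcon
    push Not at hcon
    exact hAuniv (eq_univ_of_forall hcon)
  have hgauge := fun i => exists_gauge hE h hA (fun y hy => not_not.1 hy) hσ hσq (hpc i) (hp i)
    (hF i) (hFo i)
  choose G hG hGo hGloc using hgauge
  obtain ⟨x₁, rfl⟩ := h.qsurj y₁
  -- the cocycles
  have hGo' : ∀ i x t, Over (p i (q x)) (G i (Φ t x)) := by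
    intro i x t
    have := hGo i (Φ t x)
    rwa [h.q_flow] at this
  obtain ⟨T, hT, hTx⟩ : ∃ T, 0 < T ∧ Φ T x₁ = x₁ := by
    refine (h.periodic_or_proper x₁).resolve_right ?_
    rintro ⟨-, hp⟩
    have h1 := hp _ hy₁
    have h2 : {t | Φ t x₁ ∈ q ⁻¹' {q x₁}} = univ := by
      ext t
      simp [h.q_flow]
    rw [h2] at h1
    exact noncompact_univ ℝ h1
  have hlog : ∀ i, ∃ θ : ℝ → ℝ, Continuous θ ∧
      ∀ t, Circle.exp (θ t) = rat (G i x₁) (G i (Φ t x₁)) := by
    intro i
    refine exists_log_real _ ?_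
    rw [← continuousOn_univ]
    exact continuousOn_rat (p := fun _ => p i (q x₁)) (fun t _ => hp i _) continuousOn_const
      ((hG i).comp (h.cont_t x₁)).continuousOn (fun t _ => hGo i x₁) (fun t _ => hGo' i x₁ t)
  choose θ hθ hθG using hlog
  have hwind : ∀ i, ∃ d : ℤ, θ i T - θ i 0 = d * (2 * Real.pi) := by
    intro i
    have : Circle.exp (θ i T) = Circle.exp (θ i 0) := by
      rw [hθG, hθG, hTx, h.zero]
    obtain ⟨m, hm⟩ := Circle.exp_eq_exp.1 this
    exact ⟨m, by linarith⟩
  choose d hd using hwind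
  obtain ⟨a, ha, had⟩ : ∃ a : Fin 2 → ℤ, a ≠ 0 ∧ a 0 * d 0 + a 1 * d 1 = 0 := by
    by_cases hd0 : d = 0
    · refine ⟨fun _ => 1, ?_, by simp [hd0]⟩
      intro hcon
      have := congrFun hcon 0
      simp at this
    · refine ⟨![d 1, -d 0], ?_, by simp; ring⟩
      intro hcon
      apply hd0
      have h1 := congrFun hcon 0
      have h2 := congrFun hcon 1
      ext i
      fin_cases i
      · simpa using h2
      · simpa using h1
  set c : ℝ → E → Circle := fun t x => ∏ i, rat (G i x) (G i (Φ t x)) ^ a i with hc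
  have hloc : LocTriv Φ q c := by
    intro y₀
    choose W hW hyW s hs hso B hB hsB using fun i => hGloc i y₀
    refine ⟨⋂ i, W i, isOpen_iInter_of_finite hW, mem_iInter.2 hyW,
      fun x => ∏ i, rat (s i (q x)) (G i x) ^ a i, ?_, ⟨⋃ i, B i, isCompact_iUnion hB, ?_⟩, ?_⟩
    · refine continuousOn_finsetProd _ (fun i _ => ContinuousOn.zpow ?_ _)
      refine continuousOn_rat (p := fun x => p i (q x)) (fun x _ => hp i _) ?_
        (hG i).continuousOn (fun x hx => hso i _ (mem_iInter.1 hx i)) (fun x _ => hGo i x)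
      exact (hs i).comp h.qcont.continuousOn (fun x hx => mem_iInter.1 hx i)
    · intro x hx hxB
      refine Finset.prod_eq_one (fun i _ => ?_)
      have hxi : q x ∈ W i := mem_iInter.1 hx i
      rw [← hsB i x hxi (fun hh => hxB (mem_iUnion.2 ⟨i, hh⟩)), (hGo i x).rat_self (hp i _),
        one_zpow]
    · intro x hx t
      simp only [hc]
      rw [← Finset.prod_div_distrib]
      refine Finset.prod_congr rfl (fun i _ => ?_)
      have hxi : q x ∈ W i := mem_iInter.1 hx i
      rw [← div_zpow, h.q_flow]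
      congr 1
      rw [eq_div_iff_mul_eq', mul_comm]
      exact (hso i _ hxi).rat_trans (hp i _) (hGo i x) (hGo' i x t)
  have hnull : NullC Φ q c (q x₁) := by
    obtain ⟨W, hW, hyW, f, hf, ⟨B, hB, hfB⟩, hcf⟩ := hloc (q x₁)
    refine (h.nullC_iff hcf hyW).2 ?_
    obtain ⟨e₀, he₀⟩ : ∃ e₀ : ℝ, Circle.exp e₀ = f x₁ := ⟨_, Circle.exp_arg _⟩
    refine h.nullF_of_periodic x₁ hT hTx
      (θ := fun t => a 0 * θ 0 t + a 1 * θ 1 t + e₀) (by
        have h0 := hθ 0
        have h1 := hθ 1
        fun_prop) ?_ ?_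
    · intro t
      have h1 := hcf x₁ hyW t
      simp only [hc, Fin.prod_univ_two] at h1
      rw [Circle.exp_add, Circle.exp_add, exp_int_mul, exp_int_mul, hθG, hθG, he₀, h1,
        div_mul_cancel]
    · have e0 : θ 0 T = θ 0 0 + d 0 * (2 * Real.pi) := by linarith [hd 0]
      have e1 : θ 1 T = θ 1 0 + d 1 * (2 * Real.pi) := by linarith [hd 1]
      have e2 : (a 0 : ℝ) * d 0 + a 1 * d 1 = 0 := by exact_mod_cast had
      rw [e0, e1]
      linear_combination (2 * Real.pi) * e2
  obtain ⟨R, hR, hRc⟩ := h.exists_global hloc hnull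
  -- the equivariant function
  obtain ⟨S, hS⟩ : ∃ S : (Fin 2 → sphere (0 : ℍ) 1) → E → Circle, S = fun w x =>
    (∏ i, rat (w i) (G i x) ^ a i) * Circle.exp (- R x) := ⟨_, rfl⟩
  have hSinv : ∀ w x x', q x = Hm w → q x' = Hm w → S w x = S w x' := by
    intro w x x' hx hx'
    obtain ⟨t, rfl⟩ := (h.fib x x').1 (hx.trans hx'.symm)
    have h1 := hRc x t
    simp only [hc] at h1
    simp only [hS]
    have h2 : ∏ i, rat (w i) (G i (Φ t x)) ^ a i =
        (∏ i, rat (w i) (G i x) ^ a i) * ∏ i, rat (G i x) (G i (Φ t x)) ^ a i := by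
      rw [← Finset.prod_mul_distrib]
      refine Finset.prod_congr rfl (fun i _ => ?_)
      rw [← mul_zpow]
      congr 1
      have hw : Over (p i (q x)) (w i) := by rw [hx]; exact hHo w i
      exact (hw.rat_trans (hp i _) (hGo i x) (hGo' i x t)).symm
    rw [h2, h1, mul_assoc, ← Circle.exp_add]
    congr 2
    ring
  have hScont : ∀ w x, q x = Hm w → ContinuousAt (fun z : (Fin 2 → sphere (0 : ℍ) 1) × E =>
      S z.1 z.2) (w, x) := by
    intro w x hx
    simp only [hS]
    refine ContinuousAt.mul ?_ ?_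
    · refine tendsto_finsetProd _ (fun i _ => ?_)
      refine ContinuousAt.zpow ?_ _
      have hw : Over (p i (q x)) (w i) := by rw [hx]; exact hHo w i
      have hu : ContinuousAt (fun z : (Fin 2 → sphere (0 : ℍ) 1) × E => (z.1 i : ℍ)) (w, x) := by
        fun_prop
      have hv : ContinuousAt (fun z : (Fin 2 → sphere (0 : ℍ) 1) × E => G i z.2) (w, x) :=
        ((hG i).comp continuous_snd).continuousAt
      exact continuousAt_rat_comp (hp i _) hu hv hw (hGo i x)
    · exact (Circle.exp.continuous.comp (by fun_prop :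
        Continuous fun z : (Fin 2 → sphere (0 : ℍ) 1) × E => - R z.2)).continuousAt
  choose X hX using fun w => h.qsurj (Hm w)
  have hsc : Continuous fun w => S w (X w) := by
    rw [continuous_iff_continuousAt]
    intro w V hV
    have h1 := (hScont w (X w) (hX w)) hV
    rw [mem_map, nhds_prod_eq, mem_prod_iff] at h1
    obtain ⟨U, hU, O, hO, hUO⟩ := h1
    have h2 : q '' O ∈ 𝓝 (Hm w) := by
      rw [← hX w]
      exact h.qopen.image_mem_nhds hO
    have h3 := hHc.continuousAt.preimage_mem_nhds h2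
    rw [mem_map]
    filter_upwards [hU, h3] with w' hw' hw'2
    obtain ⟨x, hxO, hxw⟩ := hw'2
    have h4 : S w' (X w') = S w' x := hSinv w' _ _ (hX w') hxw
    rw [mem_preimage, h4]
    exact hUO (show (w', x) ∈ U ×ˢ O from ⟨hw', hxO⟩)
  apply ha
  ext j
  have hj : -a j = 0 := by
    refine degree_zero (s := fun u => S (Function.update w₀ j u) (X (Function.update w₀ j u)))
      (hsc.comp (continuous_const.update j continuous_id)) (w₀ j) ?_
    intro α u hu
    have h1 := hHmove j u _ hu
    have h2 : Function.update w₀ j (w₀ j) = w₀ := Function.update_eq_self j w₀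
    rw [h2]
    have h3 : S (Function.update w₀ j u) (X (Function.update w₀ j u)) =
        S (Function.update w₀ j u) (X w₀) := hSinv _ _ _ (hX _) (by rw [hX, h1])
    rw [h3]
    simp only [hS]
    have h4 : ∏ i, rat (Function.update w₀ j u i) (G i (X w₀)) ^ a i =
        (∏ i, rat (w₀ i) (G i (X w₀)) ^ a i) * Circle.exp α ^ (-a j) := by
      rw [← Finset.mul_prod_erase _ _ (Finset.mem_univ j),
        ← Finset.mul_prod_erase _ (fun i => rat (w₀ i) (G i (X w₀)) ^ a i) (Finset.mem_univ j)]
      have h5 : ∀ i ∈ Finset.univ.erase j, rat (Function.update w₀ j u i) (G i (X w₀)) ^ a i =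
          rat (w₀ i) (G i (X w₀)) ^ a i := by
        intro i hi
        rw [Function.update_of_ne (Finset.ne_of_mem_erase hi)]
      rw [Finset.prod_congr rfl h5, Function.update_self]
      have hGX : Over (p j (Hm w₀)) (G j (X w₀)) := by
        have := hGo j (X w₀)
        rwa [hX] at this
      have h6 : Over (p j (Hm w₀)) (w₀ j) := hHo w₀ j
      have h7 : Over (p j (Hm w₀)) u := by rw [hu]; exact h6.mul_cq _
      have h8 := h7.rat_trans (hp j _) h6 hGX
      have h9 := h6.rat_inv (hp j _) h7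
      have h10 : rat u (G j (X w₀)) = (Circle.exp α)⁻¹ * rat (w₀ j) (G j (X w₀)) := by
        rw [← h8, ← h9, hu, rat_mul_self h6.1]
      rw [h10, mul_zpow, inv_zpow, zpow_neg]
      simp only [mul_comm, mul_left_comm, mul_assoc]
    rw [h4]
    simp only [mul_comm, mul_left_comm, mul_assoc]
  have := neg_eq_zero.1 hj
  simpa using this

end Pool.Agent.MP74810d
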