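import Mathlib
import Pool.Agent.Lib.MP_74810d_gt.Final

/-!
The product of two round two-spheres as a four-manifold, and its Hopf data.
-/

open Metric Set Topology Filter Quaternion
open scoped Quaternion

namespace Pool.Agent.MP74810d

/-- the two-sphere -/
abbrev S2 : Type := sphere (0 : EuclideanSpace ℝ (Fin 3)) 1

instance factFin3 : Fact (Module.finrank ℝ (EuclideanSpace ℝ (Fin 3)) = 2 + 1) := ⟨by simp⟩

/-- the chart of the plane times the plane by four-space -/
noncomputable def e22 : ModelProd (EuclideanSpace ℝ (Fin 2)) (EuclideanSpace ℝ (Fin 2)) ≃ₜ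
    EuclideanSpace ℝ (Fin 4) :=
  (ContinuousLinearEquiv.ofFinrankEq (𝕜 := ℝ)
    (E := EuclideanSpace ℝ (Fin 2) × EuclideanSpace ℝ (Fin 2))
    (F := EuclideanSpace ℝ (Fin 4)) (by simp)).toHomeomorph

noncomputable instance chart22 : ChartedSpace (EuclideanSpace ℝ (Fin 4))
    (ModelProd (EuclideanSpace ℝ (Fin 2)) (EuclideanSpace ℝ (Fin 2))) :=
  e22.toOpenPartialHomeomorph.singletonChartedSpace rfl

noncomputable instance chartS2S2 : ChartedSpace (EuclideanSpace ℝ (Fin 4)) (S2 × S2) :=
  ChartedSpace.comp (EuclideanSpace ℝ (Fin 4))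
    (ModelProd (EuclideanSpace ℝ (Fin 2)) (EuclideanSpace ℝ (Fin 2))) (S2 × S2)

theorem simplyConnected_S2S2 : SimplyConnectedSpace (S2 × S2) := by
  have : SimplyConnectedSpace S2 :=
    sphere_simplyConnected (E := EuclideanSpace ℝ (Fin 3)) (by simp)
  exact prod_simplyConnected

/-- points of the two-sphere as imaginary quaternions -/
noncomputable def PS (s : S2) : ℍ := ⟨0, s.1 0, s.1 1, s.1 2⟩

@[simp] theorem PS_re (s : S2) : (PS s).re = 0 := rfl
@[simp] theorem PS_imI (s : S2) : (PS s).imI = s.1 0 := rfl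
@[simp] theorem PS_imJ (s : S2) : (PS s).imJ = s.1 1 := rfl
@[simp] theorem PS_imK (s : S2) : (PS s).imK = s.1 2 := rfl

/-- the quaternion unit `k` -/
noncomputable def qk : ℍ := ⟨0, 0, 0, 1⟩
@[simp] theorem qk_re : qk.re = 0 := rfl
@[simp] theorem qk_imI : qk.imI = 0 := rfl
@[simp] theorem qk_imJ : qk.imJ = 0 := rfl
@[simp] theorem qk_imK : qk.imK = 1 := rfl

theorem PS_sq (s : S2) : PS s * PS s = -1 := by
  have h := mem_sphere_zero_iff_norm.1 s.2
  have h2 : s.1 0 ^ 2 + s.1 1 ^ 2 + s.1 2 ^ 2 = 1 := by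
    have h3 := EuclideanSpace.norm_sq_eq (𝕜 := ℝ) s.1
    rw [h, Fin.sum_univ_three] at h3
    simp only [Real.norm_eq_abs, sq_abs] at h3
    linarith
  ext
  · simp; linarith
  · simp; ring
  · simp; ring
  · simp; ring

theorem continuous_PS : Continuous PS := by
  have h : PS = fun s : S2 => (s.1 0) • qi + (s.1 1) • qj + (s.1 2) • qk := by
    funext s
    ext <;> simp
  rw [h]
  have h0 : Continuous fun s : S2 => s.1 0 := by fun_prop
  have h1 : Continuous fun s : S2 => s.1 1 := by fun_prop
  have h2 : Continuous fun s : S2 => s.1 2 := by fun_prop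
  exact ((h0.smul continuous_const).add (h1.smul continuous_const)).add
    (h2.smul continuous_const)

theorem PS_injective : Function.Injective PS := by
  intro s t hst
  have h0 := congrArg (fun q : ℍ => q.imI) hst
  have h1 := congrArg (fun q : ℍ => q.imJ) hst
  have h2 := congrArg (fun q : ℍ => q.imK) hst
  simp only [PS] at h0 h1 h2
  apply Subtype.ext
  ext i
  fin_cases i
  · exact h0
  · exact h1
  · exact h2

/-- the Hopf image of a unit quaternion, as a quaternion -/
noncomputable def hq (u : ℍ) : ℍ := u * qi * star u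

theorem hq_re (u : ℍ) : (hq u).re = 0 := by
  unfold hq
  simp
  ring

theorem norm_hq {u : ℍ} (hu : ‖u‖ = 1) : ‖hq u‖ = 1 := by
  unfold hq
  rw [norm_mul, norm_mul, norm_star, hu, norm_qi]
  norm_num

/-- the Hopf map -/
noncomputable def hopf (u : sphere (0 : ℍ) 1) : S2 :=
  ⟨!₂[(hq u).imI, (hq u).imJ, (hq u).imK], by
    have h1 := norm_hq (mem_sphere_zero_iff_norm.1 u.2)
    rw [mem_sphere_zero_iff_norm, EuclideanSpace.norm_eq, Fin.sum_univ_three]
    have h2 : ‖hq u‖ * ‖hq u‖ = 1 := by rw [h1]; norm_num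
    rw [← Quaternion.normSq_eq_norm_mul_self, Quaternion.normSq_def', hq_re] at h2
    simp only [Real.norm_eq_abs, sq_abs]
    simp
    linarith⟩

theorem continuous_hopf : Continuous hopf := by
  have hc : Continuous fun u : sphere (0 : ℍ) 1 => hq u := by unfold hq; fun_prop
  refine Continuous.subtype_mk ?_ _
  have h0 := Quaternion.continuous_imI.comp hc
  have h1 := Quaternion.continuous_imJ.comp hc
  have h2 := Quaternion.continuous_imK.comp hc
  refine (PiLp.continuous_toLp 2 _).comp ?_
  refine continuous_pi fun i => ?_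
  fin_cases i
  · exact h0
  · exact h1
  · exact h2

theorem PS_hopf (u : sphere (0 : ℍ) 1) : PS (hopf u) = hq u := by
  ext
  · simp [PS, hq_re]
  · simp [PS, hopf]
  · simp [PS, hopf]
  · simp [PS, hopf]

theorem over_hopf (u : sphere (0 : ℍ) 1) : Over (PS (hopf u)) u := by
  have hu := mem_sphere_zero_iff_norm.1 u.2
  refine ⟨hu, ?_⟩
  rw [PS_hopf]
  unfold hq
  rw [mul_assoc _ (star _), star_mul_self_of_norm hu, mul_one]

/-- the main result for the product of two spheres -/
theorem no_flow_S2S2 {n : ℕ} (hn : 2 < n)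
    {Φ : ℝ → EuclideanSpace ℝ (Fin n) → EuclideanSpace ℝ (Fin n)}
    (hΦ : Continuous fun p : ℝ × EuclideanSpace ℝ (Fin n) => Φ p.1 p.2)
    (h0 : ∀ x, Φ 0 x = x) (hadd : ∀ s t x, Φ (s + t) x = Φ s (Φ t x))
    (e : Quot (fun x y : EuclideanSpace ℝ (Fin n) => ∃ t : ℝ, Φ t x = y) ≃ₜ S2 × S2) :
    False := by
  set r : EuclideanSpace ℝ (Fin n) → EuclideanSpace ℝ (Fin n) → Prop :=
    fun x y => ∃ t : ℝ, Φ t x = y with hr
  have hinv : ∀ t x, Φ (-t) (Φ t x) = x := fun t x => by rw [← hadd]; simp [h0]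
  have hrefl : ∀ x, r x x := fun x => ⟨0, h0 x⟩
  have hsymm : ∀ {x y}, r x y → r y x := by
    rintro x y ⟨t, rfl⟩
    exact ⟨-t, hinv t x⟩
  have htrans : ∀ {x y z}, r x y → r y z → r x z := by
    rintro x y z ⟨t, rfl⟩ ⟨s, rfl⟩
    exact ⟨s + t, hadd s t x⟩
  have heqv : Equivalence r := ⟨hrefl, hsymm, htrans⟩
  have hfib : ∀ x y, Quot.mk r x = Quot.mk r y ↔ r x y := by
    intro x y
    rw [Quot.eq, heqv.eqvGen_iff]
  have hflow : FlowOrb Φ (fun x => e (Quot.mk r x)) := by
    refine ⟨hΦ, h0, hadd, e.continuous.comp continuous_quot_mk, ?_, ?_, ?_⟩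
    · have hopen : IsOpenMap (Quot.mk r) := by
        intro U hU
        rw [← isQuotientMap_quot_mk.isOpen_preimage]
        have : Quot.mk r ⁻¹' (Quot.mk r '' U) = ⋃ t : ℝ, Φ t ⁻¹' U := by
          ext x
          simp only [mem_preimage, mem_image, mem_iUnion]
          constructor
          · rintro ⟨y, hy, hyx⟩
            obtain ⟨t, ht⟩ := hsymm ((hfib _ _).1 hyx)
            exact ⟨t, by rw [ht]; exact hy⟩
          · rintro ⟨t, ht⟩
            exact ⟨Φ t x, ht, (hfib _ _).2 (hsymm ⟨t, rfl⟩)⟩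
        rw [this]
        refine isOpen_iUnion fun t => hU.preimage ?_
        exact hΦ.comp (by fun_prop : Continuous fun x : EuclideanSpace ℝ (Fin n) => (t, x))
      exact e.isOpenMap.comp hopen
    · exact e.surjective.comp Quot.mk_surjective
    · intro x y
      rw [e.injective.eq_iff, hfib]
  have := simplyConnected_S2S2
  have hpc : PathConnectedSpace (S2 × S2) := inferInstance
  refine no_flow (by simpa using hn) hflow (fun i y => PS (![y.1, y.2] i)) ?_ ?_
    (fun w => (hopf (w 0), hopf (w 1))) ?_ ?_ ?_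
  · intro i
    fin_cases i
    · exact continuous_PS.comp continuous_fst
    · exact continuous_PS.comp continuous_snd
  · intro i y
    exact PS_sq _
  · exact (continuous_hopf.comp (continuous_apply 0)).prodMk
      (continuous_hopf.comp (continuous_apply 1))
  · intro w i
    fin_cases i
    · exact over_hopf _
    · exact over_hopf _
  · intro w w' hww
    have h1 := PS_injective (hww 0)
    have h2 := PS_injective (hww 1)
    exact Prod.ext h1 h2

end Pool.Agent.MP74810d
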